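import Mathlib

set_option autoImplicit false

namespace Pool.Agent.Helper90.Straus

open Finset

/-- Weighted sum over the subsets of a finite set. -/
noncomputable def W (c : ℕ → ℝ) (P : Finset ℕ) (e : ℕ → ℝ) : ℝ :=
  ∑ D ∈ P.powerset, c D.card * ∏ p ∈ D, e p

theorem W_empty (c : ℕ → ℝ) (e : ℕ → ℝ) : W c ∅ e = c 0 := by
  simp [W]

theorem W_insert (c : ℕ → ℝ) {P : Finset ℕ} {q : ℕ} (hq : q ∉ P) (e : ℕ → ℝ) :
    W c (insert q P) e = W c P e + e q * W (fun i => c (i + 1)) P e := by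
  unfold W
  rw [Finset.sum_powerset_insert hq, Finset.mul_sum]
  congr 1
  apply Finset.sum_congr rfl
  intro D hD
  have hqD : q ∉ D := fun h => hq (Finset.mem_powerset.1 hD h)
  rw [Finset.card_insert_of_notMem hqD, Finset.prod_insert hqD]
  ring

/-- Truncated signs. -/
noncomputable def u (m : ℕ) : ℕ → ℝ := fun i => if i ≤ m then (-1) ^ i else 0

/-- Indicator of one size. -/
noncomputable def s (m : ℕ) : ℕ → ℝ := fun i => if i = m then 1 else 0

theorem W_neg (c : ℕ → ℝ) (P : Finset ℕ) (e : ℕ → ℝ) : W (fun i => - c i) P e = - W c P e := by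
  unfold W
  rw [← Finset.sum_neg_distrib]
  exact Finset.sum_congr rfl fun D _ => by ring

theorem W_zero (P : Finset ℕ) (e : ℕ → ℝ) : W (fun _ => 0) P e = 0 := by
  simp [W]

theorem u_succ (m : ℕ) : (fun i => u (m + 1) (i + 1)) = fun i => - u m i := by
  funext i
  unfold u
  by_cases h : i ≤ m
  · rw [if_pos (by omega), if_pos h]
    ring
  · rw [if_neg (by omega), if_neg h]
    ring

theorem u_zero : (fun i => u 0 (i + 1)) = fun _ => (0 : ℝ) := by
  funext i
  unfold u
  rw [if_neg (by omega)]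

theorem s_succ (m : ℕ) : (fun i => s (m + 1) (i + 1)) = s m := by
  funext i
  unfold s
  by_cases h : i = m
  · rw [if_pos (by omega), if_pos h]
  · rw [if_neg (by omega), if_neg h]

theorem s_zero : (fun i => s 0 (i + 1)) = fun _ => (0 : ℝ) := by
  funext i
  unfold s
  rw [if_neg (by omega)]

theorem W_u_succ (m : ℕ) (P : Finset ℕ) (e : ℕ → ℝ) :
    W (u (m + 1)) P e = W (u m) P e + (-1) ^ (m + 1) * W (s (m + 1)) P e := by
  unfold W
  rw [Finset.mul_sum, ← Finset.sum_add_distrib]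
  apply Finset.sum_congr rfl
  intro D _
  unfold u s
  rcases lt_trichotomy D.card (m + 1) with h | h | h
  · rw [if_pos (by omega), if_pos (by omega), if_neg (by omega)]
    ring
  · rw [if_pos (by omega), if_neg (by omega), if_pos (by omega), h]
    ring
  · rw [if_neg (by omega), if_neg (by omega), if_neg (by omega)]
    ring

theorem W_u_zero (P : Finset ℕ) (e : ℕ → ℝ) : W (u 0) P e = 1 := by
  induction P using Finset.induction_on with
  | empty => rw [W_empty]; simp [u]
  | insert q P hq ih => rw [W_insert _ hq, u_zero, W_zero, ih]; ring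

theorem W_s_zero (P : Finset ℕ) (e : ℕ → ℝ) : W (s 0) P e = 1 := by
  induction P using Finset.induction_on with
  | empty => rw [W_empty]; simp [s]
  | insert q P hq ih => rw [W_insert _ hq, s_zero, W_zero, ih]; ring

/-- Bonferroni inequalities. -/
theorem bonf {P : Finset ℕ} {e : ℕ → ℝ} (he : ∀ p ∈ P, 0 ≤ e p ∧ e p ≤ 1) (m : ℕ) :
    0 ≤ (-1) ^ m * (W (u m) P e - ∏ p ∈ P, (1 - e p)) := by
  induction P using Finset.induction_on generalizing m with
  | empty =>
    rw [W_empty]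
    simp [u]
  | insert q P hq ih =>
    have he' : ∀ p ∈ P, 0 ≤ e p ∧ e p ≤ 1 := fun p hp => he p (Finset.mem_insert_of_mem hp)
    obtain ⟨h0, h1⟩ := he q (Finset.mem_insert_self _ _)
    rw [Finset.prod_insert hq]
    cases m with
    | zero =>
      rw [W_u_zero, pow_zero, one_mul]
      have hV : ∏ p ∈ P, (1 - e p) ≤ 1 :=
        Finset.prod_le_one (fun p hp => by linarith [(he' p hp).2])
          (fun p hp => by linarith [(he' p hp).1])
      have hV0 : 0 ≤ ∏ p ∈ P, (1 - e p) :=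
        Finset.prod_nonneg (fun p hp => by linarith [(he' p hp).2])
      nlinarith
    | succ m =>
      rw [W_insert _ hq, u_succ, W_neg]
      have h2 := ih he' (m + 1)
      have h3 := ih he' m
      have h4 : (-1 : ℝ) ^ (m + 1) * (W (u (m + 1)) P e + e q * -W (u m) P e -
          (1 - e q) * ∏ p ∈ P, (1 - e p)) =
          (-1) ^ (m + 1) * (W (u (m + 1)) P e - ∏ p ∈ P, (1 - e p)) +
          e q * ((-1) ^ m * (W (u m) P e - ∏ p ∈ P, (1 - e p))) := by
        rw [pow_succ]
        ring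
      rw [h4]
      exact add_nonneg h2 (mul_nonneg h0 h3)

theorem bonf_le {P : Finset ℕ} {e : ℕ → ℝ} (he : ∀ p ∈ P, 0 ≤ e p ∧ e p ≤ 1) (b : ℕ) :
    ∏ p ∈ P, (1 - e p) ≤ W (u (2 * b)) P e := by
  have h := bonf he (2 * b)
  rw [pow_mul] at h
  norm_num at h
  linarith

theorem bonf_ge {P : Finset ℕ} {e : ℕ → ℝ} (he : ∀ p ∈ P, 0 ≤ e p ∧ e p ≤ 1) (b : ℕ) :
    W (u (2 * b)) P e - ∏ p ∈ P, (1 - e p) ≤ W (s (2 * b + 1)) P e := by
  have h := bonf he (2 * b + 1)
  rw [W_u_succ, pow_succ, pow_mul] at h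
  norm_num at h
  linarith

theorem pow_add_ge {S x : ℝ} (hS : 0 ≤ S) (hx : 0 ≤ x) (m : ℕ) :
    S ^ (m + 1) + (m + 1) * x * S ^ m ≤ (S + x) ^ (m + 1) := by
  induction m with
  | zero => simp
  | succ m ih =>
    have h1 : (S + x) ^ (m + 1 + 1) = (S + x) ^ (m + 1) * (S + x) := pow_succ _ _
    rw [h1]
    have h2 : (S ^ (m + 1) + (m + 1) * x * S ^ m) * (S + x) ≤ (S + x) ^ (m + 1) * (S + x) :=
      mul_le_mul_of_nonneg_right ih (by linarith)
    refine le_trans ?_ h2
    have h3 : 0 ≤ (m + 1 : ℝ) * x * S ^ m * x := by positivity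
    have h4 : (S ^ (m + 1) + (m + 1) * x * S ^ m) * (S + x) =
        S ^ (m + 1 + 1) + (((m + 1 : ℕ) : ℝ) + 1) * x * S ^ (m + 1) +
          (m + 1 : ℝ) * x * S ^ m * x := by
      push_cast
      ring
    rw [h4]
    linarith

theorem W_nonneg {c : ℕ → ℝ} (hc : ∀ i, 0 ≤ c i) {P : Finset ℕ} {e : ℕ → ℝ}
    (he : ∀ p ∈ P, 0 ≤ e p) : 0 ≤ W c P e := by
  unfold W
  apply Finset.sum_nonneg
  intro D hD
  exact mul_nonneg (hc _) (Finset.prod_nonneg fun p hp => he p (Finset.mem_powerset.1 hD hp))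

theorem s_nonneg (m i : ℕ) : 0 ≤ s m i := by
  unfold s
  split_ifs <;> norm_num

theorem W_s_le {P : Finset ℕ} {e : ℕ → ℝ} (he : ∀ p ∈ P, 0 ≤ e p) (m : ℕ) :
    (m.factorial : ℝ) * W (s m) P e ≤ (∑ p ∈ P, e p) ^ m := by
  induction P using Finset.induction_on generalizing m with
  | empty =>
    rw [W_empty]
    cases m with
    | zero => simp [s]
    | succ m => simp [s]
  | insert q P hq ih =>
    have he' : ∀ p ∈ P, 0 ≤ e p := fun p hp => he p (Finset.mem_insert_of_mem hp)
    have h0 := he q (Finset.mem_insert_self _ _)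
    cases m with
    | zero => rw [W_s_zero]; simp
    | succ m =>
      rw [W_insert _ hq, s_succ, Finset.sum_insert hq, Nat.factorial_succ]
      have h1 := ih he' (m + 1)
      have h2 := ih he' m
      rw [Nat.factorial_succ] at h1
      push_cast at h1 ⊢
      have hS : 0 ≤ ∑ p ∈ P, e p := Finset.sum_nonneg he'
      have h3 := pow_add_ge hS h0 m
      have h4 : (m + 1 : ℝ) * e q * ((m.factorial : ℝ) * W (s m) P e) ≤
          (m + 1 : ℝ) * e q * (∑ p ∈ P, e p) ^ m :=
        mul_le_mul_of_nonneg_left h2 (by positivity)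
      rw [add_comm (e q)]
      calc ((m : ℝ) + 1) * (m.factorial : ℝ) * (W (s (m + 1)) P e + e q * W (s m) P e)
          = ((m : ℝ) + 1) * (m.factorial : ℝ) * W (s (m + 1)) P e +
            (m + 1 : ℝ) * e q * ((m.factorial : ℝ) * W (s m) P e) := by ring
        _ ≤ (∑ p ∈ P, e p) ^ (m + 1) + (m + 1 : ℝ) * e q * (∑ p ∈ P, e p) ^ m := add_le_add h1 h4
        _ ≤ _ := h3

theorem W_mono {c c' : ℕ → ℝ} (hc : ∀ i, c i ≤ c' i) {P : Finset ℕ} {e : ℕ → ℝ}
    (he : ∀ p ∈ P, 0 ≤ e p) : W c P e ≤ W c' P e := by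
  unfold W
  apply Finset.sum_le_sum
  intro D hD
  exact mul_le_mul_of_nonneg_right (hc _)
    (Finset.prod_nonneg fun p hp => he p (Finset.mem_powerset.1 hD hp))

/-- Indicator of the sizes at most `m`. -/
noncomputable def t (m : ℕ) : ℕ → ℝ := fun i => if i ≤ m then 1 else 0

theorem t_succ (m : ℕ) : (fun i => t (m + 1) (i + 1)) = t m := by
  funext i
  unfold t
  by_cases h : i ≤ m
  · rw [if_pos (by omega), if_pos h]
  · rw [if_neg (by omega), if_neg h]

theorem t_zero : (fun i => t 0 (i + 1)) = fun _ => (0 : ℝ) := by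
  funext i
  unfold t
  rw [if_neg (by omega)]

theorem W_t_zero (P : Finset ℕ) (e : ℕ → ℝ) : W (t 0) P e = 1 := by
  induction P using Finset.induction_on with
  | empty => rw [W_empty]; simp [t]
  | insert q P hq ih => rw [W_insert _ hq, t_zero, W_zero, ih]; ring

theorem W_t_le {κ : ℝ} (hκ : 0 ≤ κ) (P : Finset ℕ) (m : ℕ) :
    W (t m) P (fun _ => κ) ≤ (1 + κ * P.card) ^ m := by
  induction P using Finset.induction_on generalizing m with
  | empty =>
    rw [W_empty]
    simp [t]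
  | insert q P hq ih =>
    cases m with
    | zero => rw [W_t_zero]; simp
    | succ m =>
      rw [W_insert _ hq, t_succ, Finset.card_insert_of_notMem hq]
      have h1 := ih (m + 1)
      have h2 := mul_le_mul_of_nonneg_left (ih m) hκ
      have h3 : (1 + κ * (P.card : ℝ)) ^ m ≤ (1 + κ * ((P.card + 1 : ℕ) : ℝ)) ^ m := by
        apply pow_le_pow_left₀ (by positivity)
        push_cast
        nlinarith
      calc W (t (m + 1)) P (fun _ => κ) + κ * W (t m) P (fun _ => κ)
          ≤ (1 + κ * (P.card : ℝ)) ^ (m + 1) + κ * (1 + κ * (P.card : ℝ)) ^ m := add_le_add h1 h2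
        _ = (1 + κ * ((P.card + 1 : ℕ) : ℝ)) * (1 + κ * (P.card : ℝ)) ^ m := by
            push_cast
            ring
        _ ≤ (1 + κ * ((P.card + 1 : ℕ) : ℝ)) * (1 + κ * ((P.card + 1 : ℕ) : ℝ)) ^ m :=
            mul_le_mul_of_nonneg_left h3 (by positivity)
        _ = _ := by ring

theorem abs_u_le (m i : ℕ) : |u m i| ≤ t m i := by
  unfold u t
  split_ifs
  · simp
  · simp

theorem abs_s_le (m i : ℕ) : |s m i| ≤ t m i := by
  unfold s t
  split_ifs with h1 h2 h2
  · simp
  · omega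
  · simp
  · simp

theorem W_abs_u_le {κ : ℝ} (hκ : 0 ≤ κ) (P : Finset ℕ) (m : ℕ) :
    W (fun i => |u m i|) P (fun _ => κ) ≤ (1 + κ * P.card) ^ m :=
  (W_mono (abs_u_le m) (fun _ _ => hκ)).trans (W_t_le hκ P m)

theorem W_abs_s_le {κ : ℝ} (hκ : 0 ≤ κ) (P : Finset ℕ) (m : ℕ) :
    W (fun i => |s m i|) P (fun _ => κ) ≤ (1 + κ * P.card) ^ m :=
  (W_mono (abs_s_le m) (fun _ _ => hκ)).trans (W_t_le hκ P m)

/-- `W (s m) P e = 0` if `P` has fewer than `m` elements. -/
theorem W_s_eq_zero {P : Finset ℕ} {m : ℕ} (h : P.card < m) (e : ℕ → ℝ) : W (s m) P e = 0 := by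
  unfold W
  apply Finset.sum_eq_zero
  intro D hD
  have h1 := Finset.card_le_card (Finset.mem_powerset.1 hD)
  unfold s
  rw [if_neg (by omega), zero_mul]

/-- Hooley's inequality. -/
theorem hooley {ι : Type*} [DecidableEq ι] (J : Finset ι) (x y d : ι → ℝ)
    (hx : ∀ j ∈ J, 0 ≤ x j) (hxy : ∀ j ∈ J, x j ≤ y j) (hd : ∀ j ∈ J, y j - x j ≤ d j) :
    ∏ j ∈ J, y j - ∑ l ∈ J, ∏ j ∈ J, (if j = l then d j else y j) ≤ ∏ j ∈ J, x j := by
  induction J using Finset.induction_on with
  | empty => simp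
  | insert q J hq ih =>
    have hx' : ∀ j ∈ J, 0 ≤ x j := fun j hj => hx j (Finset.mem_insert_of_mem hj)
    have hxy' : ∀ j ∈ J, x j ≤ y j := fun j hj => hxy j (Finset.mem_insert_of_mem hj)
    have hd' : ∀ j ∈ J, y j - x j ≤ d j := fun j hj => hd j (Finset.mem_insert_of_mem hj)
    have h0 := hx q (Finset.mem_insert_self _ _)
    have h1 := hxy q (Finset.mem_insert_self _ _)
    have h2 := hd q (Finset.mem_insert_self _ _)
    have ih' := ih hx' hxy' hd'
    have hy' : ∀ j ∈ J, 0 ≤ y j := fun j hj => (hx' j hj).trans (hxy' j hj)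
    have hdn : ∀ j ∈ J, 0 ≤ d j := fun j hj => by linarith [hxy' j hj, hd' j hj]
    rw [Finset.prod_insert hq, Finset.prod_insert hq, Finset.sum_insert hq]
    have e1 : ∏ j ∈ insert q J, (if j = q then d j else y j) = d q * ∏ j ∈ J, y j := by
      rw [Finset.prod_insert hq, if_pos rfl]
      congr 1
      apply Finset.prod_congr rfl
      intro j hj
      rw [if_neg (fun h : j = q => hq (h ▸ hj))]
    have e2 : ∑ l ∈ J, ∏ j ∈ insert q J, (if j = l then d j else y j) =
        y q * ∑ l ∈ J, ∏ j ∈ J, (if j = l then d j else y j) := by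
      rw [Finset.mul_sum]
      apply Finset.sum_congr rfl
      intro l hl
      rw [Finset.prod_insert hq, if_neg (fun h : q = l => hq (h ▸ hl))]
    rw [e1, e2]
    set Y := ∏ j ∈ J, y j
    set X := ∏ j ∈ J, x j
    set D := ∑ l ∈ J, ∏ j ∈ J, (if j = l then d j else y j)
    have hY : 0 ≤ Y := Finset.prod_nonneg hy'
    have hD : 0 ≤ D := by
      apply Finset.sum_nonneg
      intro l _
      apply Finset.prod_nonneg
      intro j hj
      split_ifs
      · exact hdn j hj
      · exact hy' j hj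
    have h3 : x q * (Y - X) ≤ x q * D := mul_le_mul_of_nonneg_left (by linarith) h0
    have h4 : x q * D ≤ y q * D := mul_le_mul_of_nonneg_right h1 hD
    have h5 : (y q - x q) * Y ≤ d q * Y := mul_le_mul_of_nonneg_right h2 hY
    nlinarith

end Pool.Agent.Helper90.Straus
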