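import Mathlib
import Pool.Agent.Helper90.Straus.Bonf

set_option autoImplicit false

namespace Pool.Agent.Helper90.Straus

open Finset

/-- Indicator of `n % p ∈ Ω p`. -/
noncomputable def e (Ω : ℕ → Finset ℕ) (n p : ℕ) : ℝ := if n % p ∈ Ω p then 1 else 0

theorem e_nonneg (Ω : ℕ → Finset ℕ) (n p : ℕ) : 0 ≤ e Ω n p ∧ e Ω n p ≤ 1 := by
  unfold e
  split_ifs <;> norm_num

theorem count_ap (M X m v : ℕ) (hm : 0 < m) :
    |∑ n ∈ Ico M (M + X), (if n ≡ v [MOD m] then (1 : ℝ) else 0) - X / m| ≤ 1 := by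
  rw [Finset.sum_boole]
  have h := Nat.Ico_filter_modEq_card M (M + X) hm v
  have hm0 : (0 : ℚ) < m := by exact_mod_cast hm
  set d : ℤ := ⌈(((M + X : ℕ) : ℚ) - v) / m⌉ - ⌈((M : ℚ) - v) / m⌉ with hd
  have h1 := Int.le_ceil ((((M + X : ℕ) : ℚ) - v) / m)
  have h2 := Int.ceil_lt_add_one ((((M + X : ℕ) : ℚ) - v) / m)
  have h3 := Int.le_ceil (((M : ℚ) - v) / m)
  have h4 := Int.ceil_lt_add_one (((M : ℚ) - v) / m)
  have h5 : (((M + X : ℕ) : ℚ) - v) / m = ((M : ℚ) - v) / m + X / m := by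
    push_cast
    ring
  rw [h5] at h1 h2
  have h6 : (X : ℚ) / m - 1 ≤ d := by
    rw [hd, h5]
    push_cast
    linarith
  have h7 : (d : ℚ) ≤ X / m + 1 := by
    rw [hd, h5]
    push_cast
    linarith
  have h8 : (0 : ℚ) ≤ X / m := by positivity
  have h9 : (((Ico M (M + X)).filter (fun n => n ≡ v [MOD m])).card : ℚ) = max (d : ℚ) 0 := by
    have := congrArg (fun z : ℤ => (z : ℚ)) h
    push_cast at this ⊢
    rw [this]
  have h10 : |(((Ico M (M + X)).filter (fun n => n ≡ v [MOD m])).card : ℚ) - X / m| ≤ 1 := by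
    rw [h9, abs_le]
    constructor
    · have := le_max_left (d : ℚ) 0
      linarith
    · have : max (d : ℚ) 0 ≤ X / m + 1 := max_le h7 (by linarith)
      linarith
  have h11 : ((|(((Ico M (M + X)).filter (fun n => n ≡ v [MOD m])).card : ℚ) - X / m| : ℚ) : ℝ) ≤
      ((1 : ℚ) : ℝ) := by exact_mod_cast h10
  push_cast at h11
  exact h11

theorem e_eq_sum {Ω : ℕ → Finset ℕ} {q : ℕ} (_hq : 0 < q) (hΩ : Ω q ⊆ range q) (n : ℕ) :
    e Ω n q = ∑ w ∈ Ω q, (if n ≡ w [MOD q] then (1 : ℝ) else 0) := by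
  have h1 : ∀ w ∈ Ω q, (n ≡ w [MOD q]) ↔ w = n % q := by
    intro w hw
    have := Finset.mem_range.1 (hΩ hw)
    unfold Nat.ModEq
    rw [Nat.mod_eq_of_lt this]
    exact eq_comm
  rw [Finset.sum_congr rfl (fun w hw => by rw [if_congr (h1 w hw) rfl rfl])]
  rw [Finset.sum_ite_eq']
  rfl

theorem count_prod (Ω : ℕ → Finset ℕ) (D : Finset ℕ) (hD : ∀ p ∈ D, p.Prime)
    (hΩ : ∀ p ∈ D, Ω p ⊆ range p) (M X : ℕ) : ∀ m v : ℕ, 0 < m → (∀ p ∈ D, Nat.Coprime m p) →
    |∑ n ∈ Ico M (M + X), (if n ≡ v [MOD m] then (1 : ℝ) else 0) * ∏ p ∈ D, e Ω n p -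
      X / m * ∏ p ∈ D, ((Ω p).card : ℝ) / p| ≤ ∏ p ∈ D, ((Ω p).card : ℝ) := by
  induction D using Finset.induction_on with
  | empty =>
    intro m v hm _
    simp only [Finset.prod_empty, mul_one]
    exact count_ap M X m v hm
  | insert q D hq ih =>
    intro m v hm hcop
    have ih' := ih (fun p hp => hD p (Finset.mem_insert_of_mem hp))
      (fun p hp => hΩ p (Finset.mem_insert_of_mem hp))
    have hqp : q.Prime := hD q (Finset.mem_insert_self _ _)
    have hqΩ := hΩ q (Finset.mem_insert_self _ _)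
    have hmq : Nat.Coprime m q := hcop q (Finset.mem_insert_self _ _)
    have key : ∀ n : ℕ, (if n ≡ v [MOD m] then (1 : ℝ) else 0) * ∏ p ∈ insert q D, e Ω n p =
        ∑ w ∈ Ω q, (if n ≡ (Nat.chineseRemainder hmq v w : ℕ) [MOD m * q] then (1 : ℝ) else 0) *
          ∏ p ∈ D, e Ω n p := by
      intro n
      rw [Finset.prod_insert hq, e_eq_sum hqp.pos hqΩ, ← mul_assoc, Finset.mul_sum,
        Finset.sum_mul]
      apply Finset.sum_congr rfl
      intro w _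
      congr 1
      have h1 := (Nat.chineseRemainder hmq v w).2
      have h2 : (n ≡ (Nat.chineseRemainder hmq v w : ℕ) [MOD m * q]) ↔
          (n ≡ v [MOD m] ∧ n ≡ w [MOD q]) := by
        rw [← Nat.modEq_and_modEq_iff_modEq_mul hmq]
        exact ⟨fun h => ⟨h.1.trans h1.1, h.2.trans h1.2⟩,
          fun h => ⟨h.1.trans h1.1.symm, h.2.trans h1.2.symm⟩⟩
      by_cases h3 : n ≡ v [MOD m] <;> by_cases h4 : n ≡ w [MOD q] <;> simp [h2, h3, h4]
    rw [Finset.sum_congr rfl (fun n _ => key n), Finset.sum_comm]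
    rw [Finset.prod_insert hq, Finset.prod_insert hq]
    have h5 : (X : ℝ) / m * (((Ω q).card : ℝ) / q * ∏ p ∈ D, ((Ω p).card : ℝ) / p) =
        ∑ _w ∈ Ω q, (X : ℝ) / ((m * q : ℕ) : ℝ) * ∏ p ∈ D, ((Ω p).card : ℝ) / p := by
      rw [Finset.sum_const, nsmul_eq_mul]
      push_cast
      have : (q : ℝ) ≠ 0 := by exact_mod_cast hqp.pos.ne'
      have : (m : ℝ) ≠ 0 := by exact_mod_cast hm.ne'
      field_simp
    rw [h5, ← Finset.sum_sub_distrib]
    refine (Finset.abs_sum_le_sum_abs _ _).trans ?_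
    rw [← nsmul_eq_mul, ← Finset.sum_const]
    apply Finset.sum_le_sum
    intro w _
    apply ih' (m * q) _ (Nat.mul_pos hm hqp.pos)
    intro p hp
    refine Nat.Coprime.mul_left (hcop p (Finset.mem_insert_of_mem hp)) ?_
    rw [Nat.coprime_primes hqp (hD p (Finset.mem_insert_of_mem hp))]
    rintro rfl
    exact hq hp

theorem count_prod_one {Ω : ℕ → Finset ℕ} {D : Finset ℕ} (hD : ∀ p ∈ D, p.Prime)
    (hΩ : ∀ p ∈ D, Ω p ⊆ range p) (M X : ℕ) :
    |∑ n ∈ Ico M (M + X), ∏ p ∈ D, e Ω n p - X * ∏ p ∈ D, ((Ω p).card : ℝ) / p| ≤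
      ∏ p ∈ D, ((Ω p).card : ℝ) := by
  have h := count_prod Ω D hD hΩ M X 1 0 one_pos (fun p _ => Nat.coprime_one_left p)
  simpa [Nat.modEq_one] using h

/-- Main term and error term for a product of weighted sums over disjoint blocks of primes. -/
theorem count_W {r : ℕ} {Ω : ℕ → Finset ℕ} {P : Fin r → Finset ℕ} (hP : ∀ j, ∀ p ∈ P j, p.Prime)
    (hdis : ∀ i j, i ≠ j → Disjoint (P i) (P j)) (hΩ : ∀ j, ∀ p ∈ P j, Ω p ⊆ range p)
    {κ : ℝ} (hκ : ∀ j, ∀ p ∈ P j, ((Ω p).card : ℝ) ≤ κ) (c : Fin r → ℕ → ℝ) (M X : ℕ) :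
    |∑ n ∈ Ico M (M + X), ∏ j, W (c j) (P j) (e Ω n) -
      X * ∏ j, W (c j) (P j) (fun p => ((Ω p).card : ℝ) / p)| ≤
      ∏ j, W (fun i => |c j i|) (P j) (fun _ => κ) := by
  classical
  have hexp : ∀ (c' : Fin r → ℕ → ℝ) (f : ℕ → ℝ), ∏ j, W (c' j) (P j) f =
      ∑ D ∈ Fintype.piFinset (fun j => (P j).powerset),
        (∏ j, c' j (D j).card) * ∏ p ∈ Finset.univ.biUnion D, f p := by
    intro c' f
    unfold W
    rw [Finset.prod_univ_sum]
    apply Finset.sum_congr rfl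
    intro D hD
    rw [Finset.prod_mul_distrib, Finset.prod_biUnion]
    intro i _ j _ hij
    have h1 := Finset.mem_powerset.1 (Fintype.mem_piFinset.1 hD i)
    have h2 := Finset.mem_powerset.1 (Fintype.mem_piFinset.1 hD j)
    exact Finset.disjoint_of_subset_left h1 (Finset.disjoint_of_subset_right h2 (hdis i j hij))
  have hL : ∑ n ∈ Ico M (M + X), ∏ j, W (c j) (P j) (e Ω n) =
      ∑ D ∈ Fintype.piFinset (fun j => (P j).powerset),
        (∏ j, c j (D j).card) * ∑ n ∈ Ico M (M + X), ∏ p ∈ Finset.univ.biUnion D, e Ω n p := by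
    rw [Finset.sum_congr rfl (fun n _ => hexp c (e Ω n)), Finset.sum_comm]
    apply Finset.sum_congr rfl
    intro D _
    rw [Finset.mul_sum]
  rw [hL, hexp c, hexp (fun j i => |c j i|), Finset.mul_sum, ← Finset.sum_sub_distrib]
  refine (Finset.abs_sum_le_sum_abs _ _).trans ?_
  apply Finset.sum_le_sum
  intro D hD
  have hmem : ∀ p ∈ Finset.univ.biUnion D, ∃ j, p ∈ P j := by
    intro p hp
    obtain ⟨j, _, hj⟩ := Finset.mem_biUnion.1 hp
    exact ⟨j, Finset.mem_powerset.1 (Fintype.mem_piFinset.1 hD j) hj⟩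
  have h1 := count_prod_one (Ω := Ω) (D := Finset.univ.biUnion D)
    (fun p hp => by obtain ⟨j, hj⟩ := hmem p hp; exact hP j p hj)
    (fun p hp => by obtain ⟨j, hj⟩ := hmem p hp; exact hΩ j p hj) M X
  have h2 : ∏ p ∈ Finset.univ.biUnion D, ((Ω p).card : ℝ) ≤
      ∏ _p ∈ Finset.univ.biUnion D, κ := by
    apply Finset.prod_le_prod
    · intro p _
      positivity
    · intro p hp
      obtain ⟨j, hj⟩ := hmem p hp
      exact hκ j p hj
  have h3 : (∏ j, c j (D j).card) * ∑ n ∈ Ico M (M + X), ∏ p ∈ Finset.univ.biUnion D, e Ω n p -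
      X * ((∏ j, c j (D j).card) * ∏ p ∈ Finset.univ.biUnion D, ((Ω p).card : ℝ) / p) =
      (∏ j, c j (D j).card) * (∑ n ∈ Ico M (M + X), ∏ p ∈ Finset.univ.biUnion D, e Ω n p -
        X * ∏ p ∈ Finset.univ.biUnion D, ((Ω p).card : ℝ) / p) := by ring
  rw [h3, abs_mul, Finset.abs_prod]
  exact mul_le_mul_of_nonneg_left (h1.trans h2) (Finset.prod_nonneg fun _ _ => abs_nonneg _)

end Pool.Agent.Helper90.Straus
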