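import Mathlib
import Pool.Agent.Helper90.Straus.Bonf
import Pool.Agent.Helper90.Straus.PrimeSum
import Pool.Agent.Helper90.Straus.Count

set_option autoImplicit false

namespace Pool.Agent.Helper90.Straus

open Finset

/-- Local densities. -/
noncomputable def g (Ω : ℕ → Finset ℕ) (p : ℕ) : ℝ := ((Ω p).card : ℝ) / p

/-- Admissible systems of residue classes of dimension at most `κ`. -/
def Sys (κ : ℕ) (Ω : ℕ → Finset ℕ) : Prop :=
  ∀ p, p.Prime → Ω p ⊆ range p ∧ (Ω p).card ≤ κ ∧ (Ω p).card < p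

theorem g_le {κ : ℕ} {Ω : ℕ → Finset ℕ} (hΩ : Sys κ Ω) {p : ℕ} (hp : p.Prime) :
    0 ≤ g Ω p ∧ g Ω p ≤ κ * (1 / p) ∧ 1 / (p : ℝ) ≤ 1 - g Ω p := by
  obtain ⟨_, h2, h3⟩ := hΩ p hp
  have hp0 : (0 : ℝ) < p := by exact_mod_cast hp.pos
  have h2' : ((Ω p).card : ℝ) ≤ κ := by exact_mod_cast h2
  have h3' : ((Ω p).card : ℝ) + 1 ≤ p := by exact_mod_cast h3
  refine ⟨by unfold g; positivity, ?_, ?_⟩
  · unfold g
    rw [mul_one_div]
    exact div_le_div_of_nonneg_right h2' hp0.le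
  · unfold g
    rw [le_sub_iff_add_le, ← add_div, div_le_one hp0]
    linarith

theorem g_mem {κ : ℕ} {Ω : ℕ → Finset ℕ} (hΩ : Sys κ Ω) {p : ℕ} (hp : p.Prime) :
    0 ≤ g Ω p ∧ g Ω p ≤ 1 := by
  obtain ⟨h1, _, h3⟩ := g_le hΩ hp
  refine ⟨h1, ?_⟩
  have : (0 : ℝ) ≤ 1 / p := by positivity
  linarith

theorem sum_g_le {κ : ℕ} {Ω : ℕ → Finset ℕ} (hΩ : Sys κ Ω) (j : ℕ) :
    ∑ p ∈ blk j, g Ω p ≤ 4 * κ := by
  calc ∑ p ∈ blk j, g Ω p ≤ ∑ p ∈ blk j, κ * (1 / (p : ℝ)) :=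
        Finset.sum_le_sum fun p hp => (g_le hΩ (mem_blk.1 hp).2).2.1
    _ = κ * ∑ p ∈ blk j, 1 / (p : ℝ) := by rw [Finset.mul_sum]
    _ ≤ κ * 4 := mul_le_mul_of_nonneg_left (blk_sum j) (by positivity)
    _ = 4 * κ := by ring

theorem V_large {κ : ℕ} {Ω : ℕ → Finset ℕ} (hΩ : Sys κ Ω) {j : ℕ} (hj : 2 * κ ≤ 2 ^ 2 ^ j) :
    Real.exp (-(8 * κ)) ≤ ∏ p ∈ blk j, (1 - g Ω p) := by
  have h1 : ∀ p ∈ blk j, Real.exp (-(2 * g Ω p)) ≤ 1 - g Ω p := by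
    intro p hp
    obtain ⟨⟨h1, _⟩, hpp⟩ := mem_blk.1 hp
    obtain ⟨h2, h3, _⟩ := g_le hΩ hpp
    have hp0 : (0 : ℝ) < p := by exact_mod_cast hpp.pos
    have h4 : g Ω p ≤ 1 / 2 := by
      refine h3.trans ?_
      rw [mul_one_div, div_le_div_iff₀ hp0 (by norm_num)]
      have : ((2 * κ : ℕ) : ℝ) ≤ p := by exact_mod_cast hj.trans h1
      push_cast at this
      linarith
    rw [Real.exp_neg, inv_le_comm₀ (Real.exp_pos _) (by linarith)]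
    have h5 := Real.add_one_le_exp (2 * g Ω p)
    refine le_trans ?_ h5
    rw [inv_le_iff_one_le_mul₀ (by linarith)]
    nlinarith
  calc Real.exp (-(8 * κ)) ≤ Real.exp (∑ p ∈ blk j, -(2 * g Ω p)) := by
        apply Real.exp_le_exp.2
        rw [Finset.sum_neg_distrib, ← Finset.mul_sum]
        have := sum_g_le hΩ j
        linarith
    _ = ∏ p ∈ blk j, Real.exp (-(2 * g Ω p)) := Real.exp_sum _ _
    _ ≤ _ := Finset.prod_le_prod (fun p _ => (Real.exp_pos _).le) h1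

theorem small_card {κ j : ℕ} (hj : 2 ^ 2 ^ j < 2 * κ) : 2 ^ 2 ^ (j + 1) ≤ 4 * κ ^ 2 := by
  have h1 : 2 ^ 2 ^ (j + 1) = (2 ^ 2 ^ j) ^ 2 := by
    rw [← pow_mul]
    congr 1
  rw [h1]
  calc (2 ^ 2 ^ j) ^ 2 ≤ (2 * κ) ^ 2 := Nat.pow_le_pow_left hj.le 2
    _ = 4 * κ ^ 2 := by ring

theorem V_small {κ : ℕ} {Ω : ℕ → Finset ℕ} (hΩ : Sys κ Ω) {j : ℕ} (hj : 2 ^ 2 ^ j < 2 * κ) :
    (1 / (4 * κ ^ 2 : ℝ)) ^ (4 * κ ^ 2) ≤ ∏ p ∈ blk j, (1 - g Ω p) := by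
  have hc := small_card hj
  have hκ : 0 < κ := by
    rcases Nat.eq_zero_or_pos κ with h | h
    · rw [h] at hj
      simp at hj
    · exact h
  have hκ' : (1 : ℝ) ≤ 4 * κ ^ 2 := by
    have : 1 ≤ 4 * κ ^ 2 := by
      have := pow_pos hκ 2
      omega
    exact_mod_cast this
  have h1 : ∀ p ∈ blk j, 1 / (4 * κ ^ 2 : ℝ) ≤ 1 - g Ω p := by
    intro p hp
    obtain ⟨⟨_, h1⟩, hpp⟩ := mem_blk.1 hp
    refine le_trans ?_ (g_le hΩ hpp).2.2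
    apply one_div_le_one_div_of_le (by exact_mod_cast hpp.pos)
    have : p ≤ 4 * κ ^ 2 := by omega
    exact_mod_cast this
  calc (1 / (4 * κ ^ 2 : ℝ)) ^ (4 * κ ^ 2) ≤ (1 / (4 * κ ^ 2 : ℝ)) ^ (blk j).card := by
        apply pow_le_pow_of_le_one (by positivity)
        · rw [div_le_one (by linarith)]
          exact hκ'
        · have := blk_card j
          omega
    _ = ∏ _p ∈ blk j, (1 / (4 * κ ^ 2 : ℝ)) := by rw [Finset.prod_const]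
    _ ≤ _ := Finset.prod_le_prod (fun p _ => by positivity) h1

theorem exists_v {κ : ℕ} (hκ : 1 ≤ κ) : ∃ v : ℝ, 0 < v ∧ v ≤ 1 ∧ ∀ Ω : ℕ → Finset ℕ, Sys κ Ω → ∀ j,
    v ≤ ∏ p ∈ blk j, (1 - g Ω p) := by
  refine ⟨min (Real.exp (-(8 * κ))) ((1 / (4 * κ ^ 2 : ℝ)) ^ (4 * κ ^ 2)), ?_, ?_, ?_⟩
  · apply lt_min (Real.exp_pos _)
    have : (0 : ℝ) < κ := by exact_mod_cast hκ
    positivity
  · refine (min_le_left _ _).trans ?_
    rw [Real.exp_le_one_iff]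
    have : (0 : ℝ) ≤ κ := Nat.cast_nonneg κ
    linarith
  · intro Ω hΩ j
    by_cases hj : 2 * κ ≤ 2 ^ 2 ^ j
    · exact (min_le_left _ _).trans (V_large hΩ hj)
    · exact (min_le_right _ _).trans (V_small hΩ (not_le.1 hj))

/-- For a large truncation parameter the error of one block is a tiny multiple of the main term. -/
theorem exists_b (κ : ℕ) : ∃ b₀ : ℕ, ∀ b ≥ b₀, ∀ Ω : ℕ → Finset ℕ, Sys κ Ω → ∀ j,
    W (s (2 * b + 1)) (blk j) (g Ω) ≤ 1 / 4 * (1 / 2) ^ (2 * b + 1) *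
      W (u (2 * b)) (blk j) (g Ω) := by
  have h := FloorSemiring.tendsto_pow_div_factorial_atTop (8 * (κ : ℝ))
  have h' := h.eventually_le_const (show (0 : ℝ) < 1 / 4 * Real.exp (-(8 * κ)) by positivity)
  obtain ⟨m₀, hm₀⟩ := Filter.eventually_atTop.1 h'
  refine ⟨max m₀ (2 * κ ^ 2), fun b hb Ω hΩ j => ?_⟩
  have hb1 : m₀ ≤ 2 * b + 1 := by
    have := (le_max_left _ _).trans hb
    omega
  have hb2 : 4 * κ ^ 2 < 2 * b + 1 := by
    have := (le_max_right _ _).trans hb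
    omega
  have hU : ∏ p ∈ blk j, (1 - g Ω p) ≤ W (u (2 * b)) (blk j) (g Ω) :=
    bonf_le (fun p hp => g_mem hΩ (mem_blk.1 hp).2) b
  by_cases hj : 2 * κ ≤ 2 ^ 2 ^ j
  · have hV := V_large hΩ hj
    have h1 := W_s_le (P := blk j) (e := g Ω) (fun p hp => (g_mem hΩ (mem_blk.1 hp).2).1)
      (2 * b + 1)
    have h2 : (∑ p ∈ blk j, g Ω p) ^ (2 * b + 1) ≤ (4 * κ : ℝ) ^ (2 * b + 1) :=
      pow_le_pow_left₀ (Finset.sum_nonneg fun p hp => (g_mem hΩ (mem_blk.1 hp).2).1)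
        (sum_g_le hΩ j) _
    have h3 := hm₀ (2 * b + 1) hb1
    have hf : (0 : ℝ) < ((2 * b + 1).factorial : ℝ) := by exact_mod_cast Nat.factorial_pos _
    have h4 : W (s (2 * b + 1)) (blk j) (g Ω) ≤ (4 * κ : ℝ) ^ (2 * b + 1) /
        ((2 * b + 1).factorial : ℝ) := by
      rw [le_div_iff₀ hf]
      linarith
    refine h4.trans ?_
    have h5 : (4 * κ : ℝ) ^ (2 * b + 1) / ((2 * b + 1).factorial : ℝ) =
        (1 / 2) ^ (2 * b + 1) * ((8 * κ : ℝ) ^ (2 * b + 1) / ((2 * b + 1).factorial : ℝ)) := by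
      rw [← mul_div_assoc, ← mul_pow]
      congr 2
      ring
    rw [h5]
    calc (1 / 2 : ℝ) ^ (2 * b + 1) * ((8 * κ : ℝ) ^ (2 * b + 1) / ((2 * b + 1).factorial : ℝ))
        ≤ (1 / 2 : ℝ) ^ (2 * b + 1) * (1 / 4 * Real.exp (-(8 * κ))) :=
          mul_le_mul_of_nonneg_left h3 (by positivity)
      _ ≤ (1 / 2 : ℝ) ^ (2 * b + 1) * (1 / 4 * W (u (2 * b)) (blk j) (g Ω)) :=
          mul_le_mul_of_nonneg_left (by linarith) (by positivity)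
      _ = _ := by ring
  · have h1 := small_card (not_le.1 hj)
    have h2 := blk_card j
    rw [W_s_eq_zero (by omega)]
    have h3 : 0 ≤ ∏ p ∈ blk j, (1 - g Ω p) :=
      Finset.prod_nonneg fun p hp => by linarith [(g_mem hΩ (mem_blk.1 hp).2).2]
    have h4 : 0 ≤ W (u (2 * b)) (blk j) (g Ω) := h3.trans hU
    positivity

theorem exp_sum (b₀ : ℕ) (R : ℕ) :
    ∑ j ∈ range R, 2 ^ (j + 1) * (2 * (b₀ + (R - 1 - j)) + 1) + (4 * b₀ + 4 * R + 6) =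
      2 ^ R * (4 * b₀ + 6) := by
  induction R with
  | zero => simp
  | succ R ih =>
    rw [Finset.sum_range_succ']
    have h1 : ∀ j ∈ range R, 2 ^ (j + 1 + 1) * (2 * (b₀ + (R + 1 - 1 - (j + 1))) + 1) =
        2 * (2 ^ (j + 1) * (2 * (b₀ + (R - 1 - j)) + 1)) := by
      intro j hj
      have : R + 1 - 1 - (j + 1) = R - 1 - j := by omega
      rw [this]
      ring
    rw [Finset.sum_congr rfl h1, ← Finset.mul_sum]
    have h2 : R + 1 - 1 - 0 = R := by omega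
    rw [h2]
    have h3 : 2 ^ (R + 1) * (4 * b₀ + 6) = 2 * (2 ^ R * (4 * b₀ + 6)) := by ring
    rw [h3, ← ih]
    ring

theorem exists_sq (a : ℕ) : ∃ r₀ : ℕ, ∀ r ≥ r₀, a * (r + 1) ^ 2 ≤ 2 ^ r := by
  have h := tendsto_pow_const_div_const_pow_of_one_lt 2 (show (1 : ℝ) < 2 by norm_num)
  have h' := h.eventually_le_const (show (0 : ℝ) < 1 / (4 * a + 1) by positivity)
  obtain ⟨m₀, hm₀⟩ := Filter.eventually_atTop.1 h'
  refine ⟨max m₀ 1, fun r hr => ?_⟩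
  have h1 := hm₀ r ((le_max_left _ _).trans hr)
  have h2 : 1 ≤ r := (le_max_right _ _).trans hr
  rw [div_le_div_iff₀ (by positivity) (by positivity), one_mul] at h1
  have h3 : (r ^ 2 * (4 * a + 1) : ℕ) ≤ 2 ^ r := by exact_mod_cast h1
  calc a * (r + 1) ^ 2 ≤ a * (2 * r) ^ 2 := by gcongr; omega
    _ = r ^ 2 * (4 * a) := by ring
    _ ≤ r ^ 2 * (4 * a + 1) := by gcongr; omega
    _ ≤ 2 ^ r := h3

end Pool.Agent.Helper90.Straus
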