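import Mathlib
import Pool.Agent.Helper90.Straus.Sieve

set_option autoImplicit false

namespace Pool.Agent.Helper90.Straus

open Finset

/-- The bound for the errors. -/
theorem err_bound {κ : ℕ} (hκ : 1 ≤ κ) (b₀ R : ℕ) (hR : κ * R * (2 * b₀ + 2 * R + 1) ≤ 2 ^ R) :
    ∏ j : Fin R, (1 + (κ : ℝ) * (blk j).card) ^ (2 * (b₀ + (R - 1 - j)) + 1) ≤
      2 ^ (2 ^ R * (4 * b₀ + 7)) := by
  have h1 : ∀ j : Fin R, (1 + (κ : ℝ) * (blk j).card) ^ (2 * (b₀ + (R - 1 - j)) + 1) ≤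
      2 ^ ((κ + 2 ^ ((j : ℕ) + 1)) * (2 * (b₀ + (R - 1 - j)) + 1)) := by
    intro j
    rw [pow_mul]
    apply pow_le_pow_left₀ (by positivity)
    have h2 := blk_card j
    have h3 : 1 + κ * (blk j).card ≤ 2 ^ (κ + 2 ^ ((j : ℕ) + 1)) := by
      calc 1 + κ * (blk j).card ≤ κ * ((blk j).card + 1) := by nlinarith
        _ ≤ κ * 2 ^ 2 ^ ((j : ℕ) + 1) := Nat.mul_le_mul_left _ h2
        _ ≤ 2 ^ κ * 2 ^ 2 ^ ((j : ℕ) + 1) := Nat.mul_le_mul_right _ Nat.lt_two_pow_self.le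
        _ = 2 ^ (κ + 2 ^ ((j : ℕ) + 1)) := by rw [← pow_add]
    exact_mod_cast h3
  refine (Finset.prod_le_prod (fun j _ => by positivity) (fun j _ => h1 j)).trans ?_
  rw [Finset.prod_pow_eq_pow_sum]
  apply pow_le_pow_right₀ (by norm_num)
  rw [Fin.sum_univ_eq_sum_range
    (fun j => (κ + 2 ^ (j + 1)) * (2 * (b₀ + (R - 1 - j)) + 1))]
  have h4 : ∑ j ∈ range R, (κ + 2 ^ (j + 1)) * (2 * (b₀ + (R - 1 - j)) + 1) =
      ∑ j ∈ range R, κ * (2 * (b₀ + (R - 1 - j)) + 1) +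
      ∑ j ∈ range R, 2 ^ (j + 1) * (2 * (b₀ + (R - 1 - j)) + 1) := by
    rw [← Finset.sum_add_distrib]
    exact Finset.sum_congr rfl fun j _ => by ring
  have h5 : ∑ j ∈ range R, κ * (2 * (b₀ + (R - 1 - j)) + 1) ≤ κ * R * (2 * b₀ + 2 * R + 1) := by
    calc ∑ j ∈ range R, κ * (2 * (b₀ + (R - 1 - j)) + 1)
        ≤ ∑ _j ∈ range R, κ * (2 * b₀ + 2 * R + 1) := by
          apply Finset.sum_le_sum
          intro j _
          apply Nat.mul_le_mul_left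
          omega
      _ = κ * R * (2 * b₀ + 2 * R + 1) := by
          rw [Finset.sum_const, Finset.card_range, smul_eq_mul]
          ring
  have h6 := exp_sum b₀ R
  rw [h4]
  have h7 : 2 ^ R * (4 * b₀ + 7) = 2 ^ R * (4 * b₀ + 6) + 2 ^ R := by ring
  omega

theorem sum_eps (b₀ R : ℕ) :
    ∑ j : Fin R, (1 / 4 * (1 / 2 : ℝ) ^ (2 * (b₀ + (R - 1 - (j : ℕ))) + 1)) ≤ 1 / 2 := by
  have h1 : ∀ j : Fin R, (1 / 4 * (1 / 2 : ℝ) ^ (2 * (b₀ + (R - 1 - (j : ℕ))) + 1)) ≤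
      1 / 4 * (1 / 2) ^ (R - 1 - (j : ℕ)) := by
    intro j
    apply mul_le_mul_of_nonneg_left _ (by norm_num)
    apply pow_le_pow_of_le_one (by norm_num) (by norm_num)
    omega
  refine (Finset.sum_le_sum fun j _ => h1 j).trans ?_
  rw [Fin.sum_univ_eq_sum_range (fun j => (1 / 4 * (1 / 2 : ℝ) ^ (R - 1 - j))), ← Finset.mul_sum,
    Finset.sum_range_reflect (fun j => (1 / 2 : ℝ) ^ j)]
  have h2 : ∑ j ∈ range R, (1 / 2 : ℝ) ^ j ≤ 2 := by
    rw [geom_sum_eq (by norm_num)]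
    have h3 : (0 : ℝ) ≤ (1 / 2) ^ R := by positivity
    have h4 : ((1 / 2 : ℝ) ^ R - 1) / (1 / 2 - 1) = 2 - 2 * (1 / 2) ^ R := by ring
    rw [h4]
    linarith
  linarith

open scoped Classical in
/-- The survivors of the sieve in `[M, M + X)`. -/
noncomputable def surv (Ω : ℕ → Finset ℕ) (z M X : ℕ) : Finset ℕ :=
  (Ico M (M + X)).filter (fun n => ∀ p, p.Prime → p < z → n % p ∉ Ω p)

theorem mem_surv {Ω : ℕ → Finset ℕ} {z M X n : ℕ} : n ∈ surv Ω z M X ↔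
    (M ≤ n ∧ n < M + X) ∧ ∀ p, p.Prime → p < z → n % p ∉ Ω p := by
  classical
  unfold surv
  rw [Finset.mem_filter, Finset.mem_Ico]

theorem main_lower {κ : ℕ} (hκ : 1 ≤ κ) {v : ℝ} (hv0 : 0 < v)
    (hv : ∀ Ω : ℕ → Finset ℕ, Sys κ Ω → ∀ j, v ≤ ∏ p ∈ blk j, (1 - g Ω p)) {b₀ : ℕ}
    (hb : ∀ b ≥ b₀, ∀ Ω : ℕ → Finset ℕ, Sys κ Ω → ∀ j,
      W (s (2 * b + 1)) (blk j) (g Ω) ≤ 1 / 4 * (1 / 2) ^ (2 * b + 1) *
      W (u (2 * b)) (blk j) (g Ω)) {Ω : ℕ → Finset ℕ} (hΩ : Sys κ Ω) (R M X : ℕ) :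
    X * (1 / 2 * v ^ R) - (R + 1) *
      ∏ j : Fin R, (1 + (κ : ℝ) * (blk j).card) ^ (2 * (b₀ + (R - 1 - j)) + 1) ≤
      ((surv Ω (2 ^ 2 ^ R) M X).card : ℝ) := by
  classical
  set E := ∏ j : Fin R, (1 + (κ : ℝ) * (blk j).card) ^ (2 * (b₀ + (R - 1 - j)) + 1) with hE
  set b : Fin R → ℕ := fun j => b₀ + (R - 1 - j) with hbdef
  have hbb : ∀ j, b₀ ≤ b j := fun j => Nat.le_add_right _ _
  have hbe : ∀ j : Fin R, 2 * b j ≤ 2 * (b₀ + (R - 1 - (j : ℕ))) + 1 := fun j => by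
    have : b j = b₀ + (R - 1 - (j : ℕ)) := rfl
    omega
  -- pointwise inequality
  have hpt : ∀ n : ℕ, ∏ j : Fin R, W (u (2 * b j)) (blk j) (e Ω n) -
      ∑ l : Fin R, ∏ j : Fin R, (if j = l then W (s (2 * b j + 1)) (blk j) (e Ω n)
        else W (u (2 * b j)) (blk j) (e Ω n)) ≤
      (if ∀ p, p.Prime → p < 2 ^ 2 ^ R → n % p ∉ Ω p then 1 else 0) := by
    intro n
    have h1 := hooley (Finset.univ : Finset (Fin R)) (fun j => ∏ p ∈ blk j, (1 - e Ω n p))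
      (fun j => W (u (2 * b j)) (blk j) (e Ω n)) (fun j => W (s (2 * b j + 1)) (blk j) (e Ω n))
      (fun j _ => Finset.prod_nonneg fun p _ => by linarith [(e_nonneg Ω n p).2])
      (fun j _ => bonf_le (fun p _ => e_nonneg Ω n p) (b j))
      (fun j _ => bonf_ge (fun p _ => e_nonneg Ω n p) (b j))
    refine h1.trans ?_
    by_cases h : ∀ p, p.Prime → p < 2 ^ 2 ^ R → n % p ∉ Ω p
    · rw [if_pos h]
      apply Finset.prod_le_one
      · intro j _
        exact Finset.prod_nonneg fun p _ => by linarith [(e_nonneg Ω n p).2]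
      · intro j _
        apply Finset.prod_le_one
        · intro p _
          linarith [(e_nonneg Ω n p).2]
        · intro p _
          linarith [(e_nonneg Ω n p).1]
    · rw [if_neg h]
      push Not at h
      obtain ⟨p, hp, hpR, hn⟩ := h
      obtain ⟨j, hj, hpj⟩ := exists_blk hp hpR
      apply le_of_eq
      apply Finset.prod_eq_zero (Finset.mem_univ (⟨j, hj⟩ : Fin R))
      apply Finset.prod_eq_zero (i := p) hpj
      unfold e
      rw [if_pos hn]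
      ring
  -- conditions for the counting lemma
  have hP : ∀ j : Fin R, ∀ p ∈ blk j, p.Prime := fun j p hp => (mem_blk.1 hp).2
  have hdis : ∀ i j : Fin R, i ≠ j → Disjoint (blk i) (blk j) := fun i j hij =>
    blk_disjoint (fun h => hij (Fin.ext h))
  have hsub : ∀ j : Fin R, ∀ p ∈ blk j, Ω p ⊆ range p := fun j p hp =>
    (hΩ p (mem_blk.1 hp).2).1
  have hcard : ∀ j : Fin R, ∀ p ∈ blk j, ((Ω p).card : ℝ) ≤ (κ : ℝ) := fun j p hp => by
    exact_mod_cast (hΩ p (mem_blk.1 hp).2).2.1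
  have hκ0 : (0 : ℝ) ≤ (κ : ℝ) := Nat.cast_nonneg κ
  have hone : ∀ j : Fin R, (1 : ℝ) ≤ 1 + (κ : ℝ) * (blk j).card := fun j => by
    have : (0 : ℝ) ≤ (κ : ℝ) * (blk j).card := by positivity
    linarith
  -- the main sum
  have hA : X * ∏ j : Fin R, W (u (2 * b j)) (blk j) (g Ω) - E ≤
      ∑ n ∈ Ico M (M + X), ∏ j : Fin R, W (u (2 * b j)) (blk j) (e Ω n) := by
    have h1 := count_W (P := fun j : Fin R => blk j) hP hdis hsub hcard
      (fun j => u (2 * b j)) M X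
    have h2 : ∏ j : Fin R, W (fun i => |u (2 * b j) i|) (blk j) (fun _ => (κ : ℝ)) ≤ E := by
      apply Finset.prod_le_prod
      · intro j _
        exact W_nonneg (fun _ => abs_nonneg _) (fun _ _ => hκ0)
      · intro j _
        refine (W_abs_u_le hκ0 _ _).trans ?_
        exact pow_le_pow_right₀ (hone j) (hbe j)
    have h3 := (abs_le.1 (h1.trans h2)).1
    have h4 : (fun p => ((Ω p).card : ℝ) / p) = g Ω := rfl
    rw [h4] at h3
    linarith
  have hB : ∀ l : Fin R, ∑ n ∈ Ico M (M + X), ∏ j : Fin R,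
      (if j = l then W (s (2 * b j + 1)) (blk j) (e Ω n) else W (u (2 * b j)) (blk j) (e Ω n)) ≤
      X * ∏ j : Fin R, (if j = l then W (s (2 * b j + 1)) (blk j) (g Ω)
        else W (u (2 * b j)) (blk j) (g Ω)) + E := by
    intro l
    set c : Fin R → ℕ → ℝ := fun j => if j = l then s (2 * b j + 1) else u (2 * b j) with hc
    have hcW : ∀ (f : ℕ → ℝ) (j : Fin R), (if j = l then W (s (2 * b j + 1)) (blk j) f
        else W (u (2 * b j)) (blk j) f) = W (c j) (blk j) f := by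
      intro f j
      rw [hc]
      by_cases h : j = l
      · simp only [if_pos h]
      · simp only [if_neg h]
    have h1 := count_W (P := fun j : Fin R => blk j) hP hdis hsub hcard c M X
    have h2 : ∏ j : Fin R, W (fun i => |c j i|) (blk j) (fun _ => (κ : ℝ)) ≤ E := by
      apply Finset.prod_le_prod
      · intro j _
        exact W_nonneg (fun _ => abs_nonneg _) (fun _ _ => hκ0)
      · intro j _
        rw [hc]
        by_cases h : j = l
        · simp only [if_pos h]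
          exact W_abs_s_le hκ0 _ _
        · simp only [if_neg h]
          refine (W_abs_u_le hκ0 _ _).trans ?_
          exact pow_le_pow_right₀ (hone j) (hbe j)
    have h3 := (abs_le.1 (h1.trans h2)).2
    have h4 : (fun p => ((Ω p).card : ℝ) / p) = g Ω := rfl
    rw [h4] at h3
    simp only [hcW]
    linarith
  -- positivity of the main terms
  have hVU : ∀ j : Fin R, v ≤ W (u (2 * b j)) (blk j) (g Ω) := fun j =>
    (hv Ω hΩ j).trans (bonf_le (fun p hp => g_mem hΩ (mem_blk.1 hp).2) (b j))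
  have hU0 : ∀ j : Fin R, 0 ≤ W (u (2 * b j)) (blk j) (g Ω) := fun j => hv0.le.trans (hVU j)
  have hUprod : v ^ R ≤ ∏ j : Fin R, W (u (2 * b j)) (blk j) (g Ω) := by
    have h1 : ∏ _j : Fin R, v ≤ ∏ j : Fin R, W (u (2 * b j)) (blk j) (g Ω) :=
      Finset.prod_le_prod (fun _ _ => hv0.le) (fun j _ => hVU j)
    rw [Finset.prod_const, Finset.card_univ, Fintype.card_fin] at h1
    exact h1
  have hUpos : 0 ≤ ∏ j : Fin R, W (u (2 * b j)) (blk j) (g Ω) := (pow_pos hv0 R).le.trans hUprod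
  have hC : ∑ l : Fin R, ∏ j : Fin R, (if j = l then W (s (2 * b j + 1)) (blk j) (g Ω)
        else W (u (2 * b j)) (blk j) (g Ω)) ≤
      1 / 2 * ∏ j : Fin R, W (u (2 * b j)) (blk j) (g Ω) := by
    have h1 : ∀ l : Fin R, ∏ j : Fin R, (if j = l then W (s (2 * b j + 1)) (blk j) (g Ω)
        else W (u (2 * b j)) (blk j) (g Ω)) ≤
        (1 / 4 * (1 / 2 : ℝ) ^ (2 * b l + 1)) * ∏ j : Fin R, W (u (2 * b j)) (blk j) (g Ω) := by
      intro l
      calc ∏ j : Fin R, (if j = l then W (s (2 * b j + 1)) (blk j) (g Ω)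
            else W (u (2 * b j)) (blk j) (g Ω))
          ≤ ∏ j : Fin R, ((if j = l then (1 / 4 * (1 / 2 : ℝ) ^ (2 * b l + 1)) else 1) *
              W (u (2 * b j)) (blk j) (g Ω)) := by
            apply Finset.prod_le_prod
            · intro j _
              split_ifs
              · exact W_nonneg (s_nonneg _) (fun p hp => (g_mem hΩ (mem_blk.1 hp).2).1)
              · exact hU0 j
            · intro j _
              split_ifs with h
              · rw [h]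
                exact hb (b l) (hbb l) Ω hΩ l
              · rw [one_mul]
        _ = _ := by
            rw [Finset.prod_mul_distrib, Finset.prod_ite_eq' Finset.univ l]
            simp
    refine (Finset.sum_le_sum fun l _ => h1 l).trans ?_
    rw [← Finset.sum_mul]
    exact mul_le_mul_of_nonneg_right (sum_eps b₀ R) hUpos
  -- conclusion
  have hfin : ∑ n ∈ Ico M (M + X), (if ∀ p, p.Prime → p < 2 ^ 2 ^ R → n % p ∉ Ω p then (1 : ℝ) else 0) =
      ((surv Ω (2 ^ 2 ^ R) M X).card : ℝ) := by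
    rw [Finset.sum_boole]
    congr 2
  rw [← hfin]
  have hD := Finset.sum_le_sum (fun n (_ : n ∈ Ico M (M + X)) => hpt n)
  rw [Finset.sum_sub_distrib, Finset.sum_comm] at hD
  have hB' := Finset.sum_le_sum (fun l (_ : l ∈ (Finset.univ : Finset (Fin R))) => hB l)
  rw [Finset.sum_add_distrib, ← Finset.mul_sum, Finset.sum_const, Finset.card_univ,
    Fintype.card_fin, nsmul_eq_mul] at hB'
  have hX0 : (0 : ℝ) ≤ X := Nat.cast_nonneg X
  have hC' := mul_le_mul_of_nonneg_left hC hX0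
  have hU' := mul_le_mul_of_nonneg_left hUprod hX0
  nlinarith [hA, hB', hC', hU', hD]

/-- **Lower bound sieve** (Brun–Hooley) of bounded dimension, uniform in the residue classes. -/
theorem sieve {κ : ℕ} (hκ : 1 ≤ κ) : ∃ c r₀ : ℕ, ∀ r ≥ r₀, ∀ Ω : ℕ → Finset ℕ, Sys κ Ω →
    ∀ M X : ℕ, (2 ^ 2 ^ (r + 1)) ^ c ≤ X →
    (X : ℝ) / 2 ^ 2 ^ r ≤
    ((surv Ω (2 ^ 2 ^ (r + 1)) M X).card : ℝ) := by
  obtain ⟨v, hv0, hv1, hv⟩ := exists_v hκ
  obtain ⟨b₀, hb⟩ := exists_b κ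
  obtain ⟨q, hq⟩ : ∃ q : ℕ, 1 / v ≤ 2 ^ q := pow_unbounded_of_one_lt _ (by norm_num) |>.imp
    fun _ h => h.le
  obtain ⟨r₀, hr₀⟩ := exists_sq (κ * (2 * b₀ + 3) + q + 2)
  refine ⟨4 * b₀ + 8, r₀, fun r hr Ω hΩ M X hX => ?_⟩
  have h1 := hr₀ r hr
  have hmain := main_lower hκ hv0 hv hb hΩ (r + 1) M X
  have hcond : κ * (r + 1) * (2 * b₀ + 2 * (r + 1) + 1) ≤ 2 ^ (r + 1) := by
    have h2 : κ * (r + 1) * (2 * b₀ + 2 * (r + 1) + 1) ≤ κ * (2 * b₀ + 3) * (r + 1) ^ 2 := by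
      have h3 : 2 * b₀ + 2 * (r + 1) + 1 ≤ (2 * b₀ + 3) * (r + 1) := by nlinarith
      calc κ * (r + 1) * (2 * b₀ + 2 * (r + 1) + 1) ≤ κ * (r + 1) * ((2 * b₀ + 3) * (r + 1)) :=
            Nat.mul_le_mul_left _ h3
        _ = _ := by ring
    have h4 : κ * (2 * b₀ + 3) * (r + 1) ^ 2 ≤ (κ * (2 * b₀ + 3) + q + 2) * (r + 1) ^ 2 :=
      Nat.mul_le_mul_right _ (by omega)
    have h5 : 2 ^ r ≤ 2 ^ (r + 1) := Nat.pow_le_pow_right (by norm_num) (by omega)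
    omega
  have hE := err_bound hκ b₀ (r + 1) hcond
  have hq2 : q * (r + 1) + 2 ≤ 2 ^ r := by
    have h4 : (q + 2) * (r + 1) ^ 2 ≤ (κ * (2 * b₀ + 3) + q + 2) * (r + 1) ^ 2 :=
      Nat.mul_le_mul_right _ (by omega)
    have h5 : q * (r + 1) + 2 ≤ (q + 2) * (r + 1) ^ 2 := by
      have h6 : 1 ≤ (r + 1) ^ 2 := Nat.one_le_pow _ _ (by omega)
      have h7 : r + 1 ≤ (r + 1) ^ 2 := by nlinarith
      have h8 : q * (r + 1) ≤ q * (r + 1) ^ 2 := Nat.mul_le_mul_left _ h7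
      have h9 : (q + 2) * (r + 1) ^ 2 = q * (r + 1) ^ 2 + 2 * (r + 1) ^ 2 := by ring
      omega
    omega
  refine le_trans ?_ hmain
  -- real estimates
  have hX' : (2 : ℝ) ^ (2 ^ (r + 1) * (4 * b₀ + 8)) ≤ X := by
    rw [pow_mul]
    exact_mod_cast hX
  have hXE : (2 : ℝ) ^ (2 ^ (r + 1) * (4 * b₀ + 7)) ≤ X / 2 ^ 2 ^ (r + 1) := by
    rw [le_div_iff₀ (by positivity), ← pow_add]
    have : 2 ^ (r + 1) * (4 * b₀ + 7) + 2 ^ (r + 1) = 2 ^ (r + 1) * (4 * b₀ + 8) := by ring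
    rw [this]
    exact hX'
  have hX0 : (0 : ℝ) ≤ X := Nat.cast_nonneg X
  have hR2 : ((r + 1 : ℕ) : ℝ) + 1 ≤ 2 ^ 2 ^ r := by
    have h2 : r + 2 ≤ 2 ^ 2 ^ r := by
      have h3 : r + 1 ≤ 2 ^ r := Nat.lt_two_pow_self
      have h4 : 2 ^ r + 1 ≤ 2 ^ 2 ^ r := Nat.lt_two_pow_self
      omega
    have : ((r + 2 : ℕ) : ℝ) ≤ ((2 ^ 2 ^ r : ℕ) : ℝ) := by exact_mod_cast h2
    push_cast at this ⊢
    linarith
  have hzz : (2 : ℝ) ^ 2 ^ (r + 1) = 2 ^ 2 ^ r * 2 ^ 2 ^ r := by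
    rw [← pow_add]
    congr 1
    ring
  have herr : (((r + 1 : ℕ) : ℝ) + 1) *
      ∏ j : Fin (r + 1), (1 + (κ : ℝ) * (blk j).card) ^ (2 * (b₀ + (r + 1 - 1 - j)) + 1) ≤
      X / 2 ^ 2 ^ r := by
    calc _ ≤ (2 : ℝ) ^ 2 ^ r * (X / 2 ^ 2 ^ (r + 1)) := by
          apply mul_le_mul hR2 (hE.trans hXE)
          · apply Finset.prod_nonneg
            intro j _
            positivity
          · positivity
      _ = X / 2 ^ 2 ^ r := by
          rw [hzz]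
          field_simp
  have hvq : 1 / (2 : ℝ) ^ (q * (r + 1)) ≤ v ^ (r + 1) := by
    rw [pow_mul, ← one_div_pow]
    apply pow_le_pow_left₀ (by positivity)
    rw [div_le_iff₀ (by positivity)]
    rw [div_le_iff₀ hv0] at hq
    linarith
  have hfin : 2 / (2 : ℝ) ^ 2 ^ r ≤ 1 / 2 * v ^ (r + 1) := by
    calc 2 / (2 : ℝ) ^ 2 ^ r ≤ 2 / 2 ^ (q * (r + 1) + 2) := by
          apply div_le_div_of_nonneg_left (by norm_num) (by positivity)
          exact pow_le_pow_right₀ (by norm_num) hq2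
      _ = 1 / 2 * (1 / (2 : ℝ) ^ (q * (r + 1))) := by
          rw [pow_add]
          field_simp
      _ ≤ _ := mul_le_mul_of_nonneg_left hvq (by norm_num)
  have h7 : (X : ℝ) * (2 / (2 : ℝ) ^ 2 ^ r) ≤ X * (1 / 2 * v ^ (r + 1)) :=
    mul_le_mul_of_nonneg_left hfin hX0
  have h8 : (X : ℝ) * (2 / (2 : ℝ) ^ 2 ^ r) = X / 2 ^ 2 ^ r + X / 2 ^ 2 ^ r := by ring
  push_cast at herr ⊢
  linarith

end Pool.Agent.Helper90.Straus
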