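import Mathlib
import Pool.Agent.Helper90.Straus.Sieve2

set_option autoImplicit false

namespace Pool.Agent.Helper90.Straus

open Finset

theorem prod_blk (f : ℕ → ℝ) (R : ℕ) :
    ∏ j : Fin R, ∏ p ∈ blk j, f p = ∏ p ∈ pr 2 (2 ^ 2 ^ R), f p := by
  rw [Fin.prod_univ_eq_prod_range (fun j => ∏ p ∈ blk j, f p)]
  induction R with
  | zero =>
    simp [pr]
  | succ R ih =>
    rw [Finset.prod_range_succ, ih]
    unfold blk pr
    rw [Finset.prod_filter, Finset.prod_filter, Finset.prod_filter]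
    apply Finset.prod_Ico_consecutive
    · calc 2 = 2 ^ 1 := rfl
        _ ≤ 2 ^ 2 ^ R := Nat.pow_le_pow_right (by norm_num) Nat.one_le_two_pow
    · exact Nat.pow_le_pow_right (by norm_num) (Nat.pow_le_pow_right (by norm_num) (by omega))

theorem prod_one_sub_ge {ι : Type*} (s : Finset ι) (ε : ι → ℝ) (h0 : ∀ i ∈ s, 0 ≤ ε i)
    (h1 : ∀ i ∈ s, ε i ≤ 1) : 1 - ∑ i ∈ s, ε i ≤ ∏ i ∈ s, (1 - ε i) := by
  classical
  induction s using Finset.induction_on with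
  | empty => simp
  | insert a s ha ih =>
    rw [Finset.sum_insert ha, Finset.prod_insert ha]
    have e0 := h0 a (Finset.mem_insert_self _ _)
    have e1 := h1 a (Finset.mem_insert_self _ _)
    have ih' := ih (fun i hi => h0 i (Finset.mem_insert_of_mem hi))
      (fun i hi => h1 i (Finset.mem_insert_of_mem hi))
    have hs : 0 ≤ ∑ i ∈ s, ε i := Finset.sum_nonneg fun i hi => h0 i (Finset.mem_insert_of_mem hi)
    have h3 : (1 - ε a) * (1 - ∑ i ∈ s, ε i) ≤ (1 - ε a) * ∏ i ∈ s, (1 - ε i) :=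
      mul_le_mul_of_nonneg_left ih' (by linarith)
    nlinarith

theorem main_upper {κ : ℕ} {b₀ : ℕ}
    (hb : ∀ b ≥ b₀, ∀ Ω : ℕ → Finset ℕ, Sys κ Ω → ∀ j,
      W (s (2 * b + 1)) (blk j) (g Ω) ≤ 1 / 4 * (1 / 2) ^ (2 * b + 1) *
      W (u (2 * b)) (blk j) (g Ω)) {Ω : ℕ → Finset ℕ} (hΩ : Sys κ Ω) (R M X : ℕ) :
    ((surv Ω (2 ^ 2 ^ R) M X).card : ℝ) ≤
      X * (2 * ∏ p ∈ pr 2 (2 ^ 2 ^ R), (1 - g Ω p)) +
      ∏ j : Fin R, (1 + (κ : ℝ) * (blk j).card) ^ (2 * (b₀ + (R - 1 - j)) + 1) := by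
  classical
  set E := ∏ j : Fin R, (1 + (κ : ℝ) * (blk j).card) ^ (2 * (b₀ + (R - 1 - j)) + 1) with hE
  set b : Fin R → ℕ := fun j => b₀ + (R - 1 - j) with hbdef
  have hbb : ∀ j, b₀ ≤ b j := fun j => Nat.le_add_right _ _
  have hbe : ∀ j : Fin R, 2 * b j ≤ 2 * (b₀ + (R - 1 - (j : ℕ))) + 1 := fun j => by
    have : b j = b₀ + (R - 1 - (j : ℕ)) := rfl
    omega
  have hpt : ∀ n : ℕ, (if ∀ p, p.Prime → p < 2 ^ 2 ^ R → n % p ∉ Ω p then (1 : ℝ) else 0) ≤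
      ∏ j : Fin R, W (u (2 * b j)) (blk j) (e Ω n) := by
    intro n
    have h1 : ∏ j : Fin R, ∏ p ∈ blk j, (1 - e Ω n p) ≤
        ∏ j : Fin R, W (u (2 * b j)) (blk j) (e Ω n) := by
      apply Finset.prod_le_prod
      · intro j _
        exact Finset.prod_nonneg fun p _ => by linarith [(e_nonneg Ω n p).2]
      · intro j _
        exact bonf_le (fun p _ => e_nonneg Ω n p) (b j)
    refine le_trans ?_ h1
    split_ifs with h
    · apply le_of_eq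
      symm
      apply Finset.prod_eq_one
      intro j _
      apply Finset.prod_eq_one
      intro p hp
      obtain ⟨⟨_, h3⟩, h4⟩ := mem_blk.1 hp
      have h5 : p < 2 ^ 2 ^ R := lt_of_lt_of_le h3
        (Nat.pow_le_pow_right (by norm_num) (Nat.pow_le_pow_right (by norm_num) (by omega)))
      have h6 := h p h4 h5
      unfold e
      rw [if_neg h6]
      ring
    · exact Finset.prod_nonneg fun j _ => Finset.prod_nonneg fun p _ => by
        linarith [(e_nonneg Ω n p).2]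
  have hP : ∀ j : Fin R, ∀ p ∈ blk j, p.Prime := fun j p hp => (mem_blk.1 hp).2
  have hdis : ∀ i j : Fin R, i ≠ j → Disjoint (blk i) (blk j) := fun i j hij =>
    blk_disjoint (fun h => hij (Fin.ext h))
  have hsub : ∀ j : Fin R, ∀ p ∈ blk j, Ω p ⊆ range p := fun j p hp =>
    (hΩ p (mem_blk.1 hp).2).1
  have hcard : ∀ j : Fin R, ∀ p ∈ blk j, ((Ω p).card : ℝ) ≤ (κ : ℝ) := fun j p hp => by
    exact_mod_cast (hΩ p (mem_blk.1 hp).2).2.1
  have hκ0 : (0 : ℝ) ≤ (κ : ℝ) := Nat.cast_nonneg κ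
  have hone : ∀ j : Fin R, (1 : ℝ) ≤ 1 + (κ : ℝ) * (blk j).card := fun j => by
    have : (0 : ℝ) ≤ (κ : ℝ) * (blk j).card := by positivity
    linarith
  have hA : ∑ n ∈ Ico M (M + X), ∏ j : Fin R, W (u (2 * b j)) (blk j) (e Ω n) ≤
      X * ∏ j : Fin R, W (u (2 * b j)) (blk j) (g Ω) + E := by
    have h1 := count_W (P := fun j : Fin R => blk j) hP hdis hsub hcard
      (fun j => u (2 * b j)) M X
    have h2 : ∏ j : Fin R, W (fun i => |u (2 * b j) i|) (blk j) (fun _ => (κ : ℝ)) ≤ E := by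
      apply Finset.prod_le_prod
      · intro j _
        exact W_nonneg (fun _ => abs_nonneg _) (fun _ _ => hκ0)
      · intro j _
        refine (W_abs_u_le hκ0 _ _).trans ?_
        exact pow_le_pow_right₀ (hone j) (hbe j)
    have h3 := (abs_le.1 (h1.trans h2)).2
    have h4 : (fun p => ((Ω p).card : ℝ) / p) = g Ω := rfl
    rw [h4] at h3
    linarith
  -- the density
  have hV0 : ∀ j : Fin R, 0 ≤ ∏ p ∈ blk j, (1 - g Ω p) := fun j =>
    Finset.prod_nonneg fun p hp => by linarith [(g_mem hΩ (mem_blk.1 hp).2).2]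
  have hVU : ∀ j : Fin R, ∏ p ∈ blk j, (1 - g Ω p) ≤ W (u (2 * b j)) (blk j) (g Ω) := fun j =>
    bonf_le (fun p hp => g_mem hΩ (mem_blk.1 hp).2) (b j)
  have hU0 : ∀ j : Fin R, 0 ≤ W (u (2 * b j)) (blk j) (g Ω) := fun j => (hV0 j).trans (hVU j)
  set ε : Fin R → ℝ := fun j => 1 / 4 * (1 / 2 : ℝ) ^ (2 * b j + 1) with hε
  have hε0 : ∀ j ∈ (Finset.univ : Finset (Fin R)), 0 ≤ ε j := fun j _ => by
    rw [hε]
    positivity
  have hεsum : ∑ j : Fin R, ε j ≤ 1 / 2 := sum_eps b₀ R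
  have hε1 : ∀ j ∈ (Finset.univ : Finset (Fin R)), ε j ≤ 1 := fun j hj => by
    have := Finset.single_le_sum hε0 hj
    linarith
  have hUV : ∀ j : Fin R, (1 - ε j) * W (u (2 * b j)) (blk j) (g Ω) ≤
      ∏ p ∈ blk j, (1 - g Ω p) := by
    intro j
    have h1 := bonf_ge (P := blk j) (e := g Ω) (fun p hp => g_mem hΩ (mem_blk.1 hp).2) (b j)
    have h2 := hb (b j) (hbb j) Ω hΩ j
    have h3 : ε j = 1 / 4 * (1 / 2 : ℝ) ^ (2 * b j + 1) := rfl
    rw [h3]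
    linarith
  have hprod : (1 / 2) * ∏ j : Fin R, W (u (2 * b j)) (blk j) (g Ω) ≤
      ∏ j : Fin R, ∏ p ∈ blk j, (1 - g Ω p) := by
    have h1 : ∏ j : Fin R, ((1 - ε j) * W (u (2 * b j)) (blk j) (g Ω)) ≤
        ∏ j : Fin R, ∏ p ∈ blk j, (1 - g Ω p) := by
      apply Finset.prod_le_prod
      · intro j hj
        exact mul_nonneg (by linarith [hε1 j hj]) (hU0 j)
      · intro j _
        exact hUV j
    rw [Finset.prod_mul_distrib] at h1
    refine le_trans ?_ h1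
    apply mul_le_mul_of_nonneg_right
    · have := prod_one_sub_ge Finset.univ ε hε0 hε1
      linarith
    · exact Finset.prod_nonneg fun j _ => hU0 j
  rw [prod_blk] at hprod
  have hfin : ((surv Ω (2 ^ 2 ^ R) M X).card : ℝ) =
      ∑ n ∈ Ico M (M + X), (if ∀ p, p.Prime → p < 2 ^ 2 ^ R → n % p ∉ Ω p then (1 : ℝ) else 0) := by
    rw [Finset.sum_boole]
    congr 2
  rw [hfin]
  refine (Finset.sum_le_sum fun n _ => hpt n).trans (hA.trans ?_)
  have hX0 : (0 : ℝ) ≤ X := Nat.cast_nonneg X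
  have : (X : ℝ) * ∏ j : Fin R, W (u (2 * b j)) (blk j) (g Ω) ≤
      X * (2 * ∏ p ∈ pr 2 (2 ^ 2 ^ R), (1 - g Ω p)) :=
    mul_le_mul_of_nonneg_left (by linarith) hX0
  linarith

/-- **Upper bound sieve** (Brun–Hooley) of bounded dimension. -/
theorem sieve_upper {κ : ℕ} (hκ : 1 ≤ κ) : ∃ c R₀ : ℕ, 2 ≤ c ∧ ∀ R ≥ R₀, ∀ Ω : ℕ → Finset ℕ,
    Sys κ Ω → ∀ M X : ℕ, (2 ^ 2 ^ R) ^ c ≤ X →
    ((surv Ω (2 ^ 2 ^ R) M X).card : ℝ) ≤
      X * (2 * ∏ p ∈ pr 2 (2 ^ 2 ^ R), (1 - g Ω p)) + X / 2 ^ 2 ^ R := by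
  obtain ⟨b₀, hb⟩ := exists_b κ
  obtain ⟨r₀, hr₀⟩ := exists_sq (κ * (2 * b₀ + 3))
  refine ⟨4 * b₀ + 8, r₀, by omega, fun R hR Ω hΩ M X hX => ?_⟩
  have h1 := hr₀ R hR
  have hcond : κ * R * (2 * b₀ + 2 * R + 1) ≤ 2 ^ R := by
    refine le_trans ?_ h1
    have h3 : 2 * b₀ + 2 * R + 1 ≤ (2 * b₀ + 3) * (R + 1) := by nlinarith
    calc κ * R * (2 * b₀ + 2 * R + 1) ≤ κ * (R + 1) * ((2 * b₀ + 3) * (R + 1)) := by
          apply Nat.mul_le_mul _ h3
          exact Nat.mul_le_mul_left _ (by omega)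
      _ = _ := by ring
  have hE := err_bound hκ b₀ R hcond
  refine (main_upper hb hΩ R M X).trans ?_
  have hX' : (2 : ℝ) ^ (2 ^ R * (4 * b₀ + 8)) ≤ X := by
    rw [pow_mul]
    exact_mod_cast hX
  have hXE : (2 : ℝ) ^ (2 ^ R * (4 * b₀ + 7)) ≤ X / 2 ^ 2 ^ R := by
    rw [le_div_iff₀ (by positivity), ← pow_add]
    have : 2 ^ R * (4 * b₀ + 7) + 2 ^ R = 2 ^ R * (4 * b₀ + 8) := by ring
    rw [this]
    exact hX'
  linarith [hE.trans hXE]

end Pool.Agent.Helper90.Straus
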