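import Mathlib
import Pool.Agent.Helper90.Straus.Sieve2

set_option autoImplicit false

namespace Pool.Agent.Helper90.Straus

open Finset

/-- All sums `a + b` are at least 2 and sums of different pairs are coprime. -/
def Good (A B : Finset ℕ) : Prop :=
  (∀ a ∈ A, ∀ b ∈ B, 2 ≤ a + b) ∧
  ∀ a ∈ A, ∀ b ∈ B, ∀ a' ∈ A, ∀ b' ∈ B, (a ≠ a' ∨ b ≠ b') → Nat.Coprime (a + b) (a' + b')

/-- The classes `-b` do not cover everything modulo any prime. -/
def Adm (B : Finset ℕ) : Prop := ∀ p, p.Prime → ∃ c, ∀ b ∈ B, ¬ p ∣ c + b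

/-- The classes of `-b` modulo `p`. -/
def Om (B : Finset ℕ) (p : ℕ) : Finset ℕ := (range p).filter (fun c => ∃ b ∈ B, p ∣ c + b)

theorem mem_Om {B : Finset ℕ} {p c : ℕ} : c ∈ Om B p ↔ c < p ∧ ∃ b ∈ B, p ∣ c + b := by
  simp [Om]

theorem mod_add_dvd {p n b : ℕ} : p ∣ n % p + b ↔ p ∣ n + b := by
  rw [← Nat.modEq_zero_iff_dvd, ← Nat.modEq_zero_iff_dvd]
  have h : n % p + b ≡ n + b [MOD p] := Nat.ModEq.add_right b (Nat.mod_modEq n p)
  exact ⟨fun h' => h.symm.trans h', fun h' => h.trans h'⟩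

theorem sys_Om {B : Finset ℕ} {κ : ℕ} (hB : Adm B) (hκ : B.card ≤ κ) : Sys κ (Om B) := by
  intro p hp
  refine ⟨Finset.filter_subset _ _, ?_, ?_⟩
  · have h1 : Om B p ⊆ B.image (fun b => ((p - 1) * b) % p) := by
      intro c hc
      obtain ⟨hcp, b, hb, hd⟩ := mem_Om.1 hc
      rw [Finset.mem_image]
      refine ⟨b, hb, ?_⟩
      have h2 : (p - 1) * b ≡ c [MOD p] := by
        have h3 : (p - 1) * b + b ≡ c + b [MOD p] := by
          have h4 : (p - 1) * b + b = p * b := by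
            have : p - 1 + 1 = p := Nat.sub_add_cancel hp.one_lt.le
            calc (p - 1) * b + b = (p - 1 + 1) * b := by ring
              _ = p * b := by rw [this]
          rw [h4]
          exact ((Nat.modEq_zero_iff_dvd.2 (Dvd.intro b rfl))).trans
            (Nat.modEq_zero_iff_dvd.2 hd).symm
        exact Nat.ModEq.add_right_cancel' b h3
      have h5 : ((p - 1) * b) % p = c % p := h2
      rw [h5, Nat.mod_eq_of_lt hcp]
    exact ((Finset.card_le_card h1).trans Finset.card_image_le).trans hκ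
  · obtain ⟨c, hc⟩ := hB p hp
    have h1 : Om B p ⊂ range p := by
      rw [Finset.ssubset_iff_of_subset (show Om B p ⊆ range p from Finset.filter_subset _ _)]
      refine ⟨c % p, Finset.mem_range.2 (Nat.mod_lt _ hp.pos), ?_⟩
      rw [mem_Om]
      rintro ⟨_, b, hb, hd⟩
      exact hc b hb (mod_add_dvd.1 hd)
    have h2 := Finset.card_lt_card h1
    rwa [Finset.card_range] at h2

theorem card_primeFactors_le {n L : ℕ} (hn : n ≤ 2 ^ L) : n.primeFactors.card ≤ L := by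
  rcases Nat.eq_zero_or_pos n with h | h
  · rw [h]
    simp
  · have h1 : 2 ^ n.primeFactors.card ≤ ∏ p ∈ n.primeFactors, p :=
      Finset.pow_card_le_prod _ _ _ fun p hp => (Nat.prime_of_mem_primeFactors hp).two_le
    have h2 : ∏ p ∈ n.primeFactors, p ≤ n := Nat.le_of_dvd h (Nat.prod_primeFactors_dvd n)
    exact (Nat.pow_le_pow_iff_right (by norm_num : 1 < 2)).1 (h1.trans (h2.trans hn))

/-- The primes dividing an old sum or a difference of two elements of `B`. -/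
def bad (A B : Finset ℕ) : Finset ℕ :=
  (A ×ˢ B).biUnion (fun x => (x.1 + x.2).primeFactors) ∪
    (B ×ˢ B).biUnion (fun x => (x.1 - x.2).primeFactors)

theorem card_bad {A B : Finset ℕ} {L : ℕ} (h1 : ∀ a ∈ A, ∀ b ∈ B, a + b ≤ 2 ^ L)
    (h2 : ∀ b ∈ B, b ≤ 2 ^ L) : (bad A B).card ≤ (A.card + B.card) * B.card * L := by
  unfold bad
  refine (Finset.card_union_le _ _).trans ?_
  have e1 : ((A ×ˢ B).biUnion (fun x => (x.1 + x.2).primeFactors)).card ≤ (A ×ˢ B).card * L := by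
    apply Finset.card_biUnion_le_card_mul
    intro x hx
    rw [Finset.mem_product] at hx
    exact card_primeFactors_le (h1 _ hx.1 _ hx.2)
  have e2 : ((B ×ˢ B).biUnion (fun x => (x.1 - x.2).primeFactors)).card ≤ (B ×ˢ B).card * L := by
    apply Finset.card_biUnion_le_card_mul
    intro x hx
    rw [Finset.mem_product] at hx
    exact card_primeFactors_le ((Nat.sub_le _ _).trans (h2 _ hx.1))
  rw [Finset.card_product] at e1 e2
  calc _ ≤ A.card * B.card * L + B.card * B.card * L := add_le_add e1 e2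
    _ = _ := by ring

/-- The elements of `[M, M + X)` killed by one prime. -/
def kill (B : Finset ℕ) (M X p : ℕ) : Finset ℕ :=
  (Ico M (M + X)).filter (fun n => ∃ b ∈ B, p ∣ n + b)

theorem card_kill {B : Finset ℕ} {M X p : ℕ} (hp : 0 < p) :
    ((kill B M X p).card : ℝ) ≤ B.card * (X / p + 1) := by
  classical
  have h1 : kill B M X p ⊆ B.biUnion (fun b => (Ico M (M + X)).filter
      (fun n => n ≡ (p - 1) * b [MOD p])) := by
    intro n hn
    unfold kill at hn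
    rw [Finset.mem_filter] at hn
    obtain ⟨h2, b, hb, hd⟩ := hn
    rw [Finset.mem_biUnion]
    refine ⟨b, hb, ?_⟩
    rw [Finset.mem_filter]
    refine ⟨h2, ?_⟩
    have h3 : n + b ≡ (p - 1) * b + b [MOD p] := by
      have h4 : (p - 1) * b + b = p * b := by
        have : p - 1 + 1 = p := Nat.sub_add_cancel hp
        calc (p - 1) * b + b = (p - 1 + 1) * b := by ring
          _ = p * b := by rw [this]
      rw [h4]
      exact (Nat.modEq_zero_iff_dvd.2 hd).trans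
        ((Nat.modEq_zero_iff_dvd.2 (Dvd.intro b rfl))).symm
    exact Nat.ModEq.add_right_cancel' b h3
  have h2 := (Finset.card_le_card h1).trans Finset.card_biUnion_le
  have h3 : ((kill B M X p).card : ℝ) ≤ ∑ b ∈ B, (((Ico M (M + X)).filter
      (fun n => n ≡ (p - 1) * b [MOD p])).card : ℝ) := by exact_mod_cast h2
  refine h3.trans ?_
  rw [← nsmul_eq_mul, ← Finset.sum_const]
  apply Finset.sum_le_sum
  intro b _
  have h4 := count_ap M X p ((p - 1) * b) hp
  rw [Finset.sum_boole] at h4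
  have h5 := (abs_le.1 h4).2
  linarith

theorem exists_new {A B : Finset ℕ} (hG : Good A B) (hne : B.Nonempty) {M X z : ℕ} {n : ℕ}
    (hM : 2 ≤ M) (hn : n ∈ surv (Om B) z M X)
    (hn' : ∀ p ∈ bad A B, z ≤ p → n ∉ kill B M X p) :
    n ∉ A ∧ Good (insert n A) B := by
  obtain ⟨⟨h1, h2⟩, h3⟩ := mem_surv.1 hn
  have key : ∀ p, p.Prime → ∀ b ∈ B, p ∣ n + b → p ∉ bad A B := by
    intro p hp b hb hd hbad
    by_cases hz : p < z
    · apply h3 p hp hz
      rw [mem_Om]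
      exact ⟨Nat.mod_lt _ hp.pos, b, hb, mod_add_dvd.2 hd⟩
    · apply hn' p hbad (not_lt.1 hz)
      unfold kill
      rw [Finset.mem_filter, Finset.mem_Ico]
      exact ⟨⟨h1, h2⟩, b, hb, hd⟩
  have hbad1 : ∀ p, p.Prime → ∀ a ∈ A, ∀ b ∈ B, p ∣ a + b → p ∈ bad A B := by
    intro p hp a ha b hb hd
    unfold bad
    rw [Finset.mem_union, Finset.mem_biUnion]
    left
    refine ⟨(a, b), Finset.mem_product.2 ⟨ha, hb⟩, ?_⟩
    rw [Nat.mem_primeFactors]
    refine ⟨hp, hd, ?_⟩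
    have := hG.1 a ha b hb
    simp only
    omega
  have hbad2 : ∀ p, p.Prime → ∀ b ∈ B, ∀ b' ∈ B, b' < b → p ∣ b - b' → p ∈ bad A B := by
    intro p hp b hb b' hb' hlt hd
    unfold bad
    rw [Finset.mem_union, Finset.mem_biUnion, Finset.mem_biUnion]
    right
    refine ⟨(b, b'), Finset.mem_product.2 ⟨hb, hb'⟩, ?_⟩
    rw [Nat.mem_primeFactors]
    refine ⟨hp, hd, ?_⟩
    simp only
    omega
  have hcop1 : ∀ b ∈ B, ∀ a ∈ A, ∀ b' ∈ B, Nat.Coprime (n + b) (a + b') := by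
    intro b hb a ha b' hb'
    apply Nat.Coprime.symm
    rw [Nat.coprime_comm]
    by_contra hcon
    obtain ⟨p, hp, hp1, hp2⟩ := Nat.Prime.not_coprime_iff_dvd.1 hcon
    exact key p hp b hb hp1 (hbad1 p hp a ha b' hb' hp2)
  have hcop2 : ∀ b ∈ B, ∀ b' ∈ B, b ≠ b' → Nat.Coprime (n + b) (n + b') := by
    intro b hb b' hb' hbb
    by_contra hcon
    obtain ⟨p, hp, hp1, hp2⟩ := Nat.Prime.not_coprime_iff_dvd.1 hcon
    rcases lt_or_gt_of_ne hbb with h | h
    · apply key p hp b hb hp1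
      apply hbad2 p hp b' hb' b hb h
      have := Nat.dvd_sub hp2 hp1
      have h4 : n + b' - (n + b) = b' - b := by omega
      rwa [h4] at this
    · apply key p hp b hb hp1
      apply hbad2 p hp b hb b' hb' h
      have := Nat.dvd_sub hp1 hp2
      have h4 : n + b - (n + b') = b - b' := by omega
      rwa [h4] at this
  refine ⟨?_, ?_, ?_⟩
  · intro hnA
    obtain ⟨b, hb⟩ := hne
    have h4 := hG.1 n hnA b hb
    obtain ⟨p, hp, hd⟩ := Nat.exists_prime_and_dvd (show n + b ≠ 1 by omega)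
    exact key p hp b hb hd (hbad1 p hp n hnA b hb hd)
  · intro a ha b hb
    rw [Finset.mem_insert] at ha
    rcases ha with rfl | ha
    · omega
    · exact hG.1 a ha b hb
  · intro a ha b hb a' ha' b' hb' hne'
    rw [Finset.mem_insert] at ha ha'
    rcases ha with rfl | ha
    · rcases ha' with rfl | ha'
      · apply hcop2 b hb b' hb'
        rcases hne' with h | h
        · exact absurd rfl h
        · exact h
      · exact hcop1 b hb a' ha' b' hb'
    · rcases ha' with rfl | ha'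
      · exact (hcop1 b' hb' a ha b hb).symm
      · exact hG.2 a ha b hb a' ha' b' hb' hne'

/-- **Extension of `A`.** -/
theorem ext_A {κ : ℕ} (hκ : 1 ≤ κ) : ∃ c : ℕ, ∀ A B : Finset ℕ, Good A B → Adm B → B.Nonempty →
    B.card ≤ κ → ∀ M X L : ℕ, 2 ≤ M → (∀ a ∈ A, ∀ b ∈ B, a + b ≤ 2 ^ L) → (∀ b ∈ B, b ≤ 2 ^ L) →
    c ≤ X → ((A.card + 1) * (L + 1)) ^ c ≤ X →
    ∃ n, M ≤ n ∧ n < M + X ∧ n ∉ A ∧ Good (insert n A) B := by
  obtain ⟨c₁, r₀, hs⟩ := sieve hκ
  obtain ⟨r₁, hr₁⟩ : ∃ r₁ : ℕ, 4 * κ ^ 6 ≤ 2 ^ 2 ^ r₁ := by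
    refine ⟨4 * κ ^ 6, ?_⟩
    have h1 : 4 * κ ^ 6 ≤ 2 ^ (4 * κ ^ 6) := Nat.lt_two_pow_self.le
    have h2 : 2 ^ (4 * κ ^ 6) ≤ 2 ^ 2 ^ (4 * κ ^ 6) :=
      Nat.pow_le_pow_right (by norm_num) Nat.lt_two_pow_self.le
    omega
  set R₀ := max r₀ r₁ with hR₀
  set c₂ := c₁ + 1 with hc₂
  refine ⟨max ((2 ^ 2 ^ (R₀ + 1)) ^ c₂) (8 * c₂), fun A B hG hB hne hBκ M X L hM h1 h2 h3 h4 => ?_⟩
  set c := max ((2 ^ 2 ^ (R₀ + 1)) ^ c₂) (8 * c₂) with hc
  have hX1 : (2 ^ 2 ^ (R₀ + 1)) ^ c₂ ≤ X := (le_max_left _ _).trans h3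
  -- choose the size of the sieving range
  obtain ⟨r, hr, hrX, hrX'⟩ : ∃ r, R₀ ≤ r ∧ (2 ^ 2 ^ (r + 1)) ^ c₂ ≤ X ∧
      X < (2 ^ 2 ^ (r + 2)) ^ c₂ := by
    have hex : ∃ i, X < (2 ^ 2 ^ (R₀ + i + 1)) ^ c₂ := by
      refine ⟨X, ?_⟩
      calc X < 2 ^ X := Nat.lt_two_pow_self
        _ ≤ 2 ^ 2 ^ (R₀ + X + 1) := by
          apply Nat.pow_le_pow_right (by norm_num)
          calc X ≤ 2 ^ X := Nat.lt_two_pow_self.le
            _ ≤ 2 ^ (R₀ + X + 1) := Nat.pow_le_pow_right (by norm_num) (by omega)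
        _ = (2 ^ 2 ^ (R₀ + X + 1)) ^ 1 := (pow_one _).symm
        _ ≤ (2 ^ 2 ^ (R₀ + X + 1)) ^ c₂ := Nat.pow_le_pow_right Nat.one_le_two_pow (by omega)
    classical
    set i := Nat.find hex with hi
    have hi1 : X < (2 ^ 2 ^ (R₀ + i + 1)) ^ c₂ := Nat.find_spec hex
    have hi0 : i ≠ 0 := by
      intro h
      rw [h] at hi1
      simp only [add_zero] at hi1
      omega
    have hi2 : ¬ X < (2 ^ 2 ^ (R₀ + (i - 1) + 1)) ^ c₂ :=
      Nat.find_min hex (by omega)
    refine ⟨R₀ + (i - 1), by omega, not_lt.1 hi2, ?_⟩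
    have h5 : R₀ + (i - 1) + 2 = R₀ + i + 1 := by omega
    rw [h5]
    exact hi1
  have hr0 : r₀ ≤ r := (le_max_left _ _).trans hr
  have hr1 : r₁ ≤ r := (le_max_right _ _).trans hr
  set y := 2 ^ 2 ^ r with hy
  have hz : 2 ^ 2 ^ (r + 1) = y ^ 2 := by
    rw [hy, ← pow_mul]
    congr 1
  have hz2 : 2 ^ 2 ^ (r + 2) = y ^ 4 := by
    rw [hy, ← pow_mul]
    congr 1
    ring
  have hy1 : 1 ≤ y := Nat.one_le_two_pow
  have hy2 : 4 * κ ^ 6 ≤ y := hr₁.trans
    (Nat.pow_le_pow_right (by norm_num) (Nat.pow_le_pow_right (by norm_num) hr1))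
  -- the number `w`
  set w := (A.card + 1) * (L + 1) with hw
  have hw1 : 1 ≤ w := Nat.mul_pos (by omega) (by omega)
  have hwy : w ^ 2 < y := by
    by_contra hcon
    rw [not_lt] at hcon
    have h5 : y ^ (4 * c₂) ≤ (w ^ 2) ^ (4 * c₂) := Nat.pow_le_pow_left hcon _
    have h6 : (w ^ 2) ^ (4 * c₂) = w ^ (8 * c₂) := by
      rw [← pow_mul]
      congr 1
      ring
    have h7 : w ^ (8 * c₂) ≤ w ^ c := Nat.pow_le_pow_right hw1 (le_max_right _ _)
    have h8 : (2 ^ 2 ^ (r + 2)) ^ c₂ = y ^ (4 * c₂) := by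
      rw [hz2, ← pow_mul]
    omega
  have hkey : 2 * κ ^ 3 * w < y := by
    have h5 : (2 * κ ^ 3 * w) ^ 2 < y ^ 2 := by
      calc (2 * κ ^ 3 * w) ^ 2 = 4 * κ ^ 6 * w ^ 2 := by ring
        _ ≤ y * w ^ 2 := Nat.mul_le_mul_right _ hy2
        _ < y * y := Nat.mul_lt_mul_of_pos_left hwy (by omega)
        _ = y ^ 2 := by ring
    exact lt_of_pow_lt_pow_left₀ 2 (by omega) h5
  -- survivors
  have hX2 : (2 ^ 2 ^ (r + 1)) ^ c₁ ≤ X := by
    refine le_trans ?_ hrX
    exact Nat.pow_le_pow_right Nat.one_le_two_pow (by omega)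
  have hsur := hs r hr0 (Om B) (sys_Om hB hBκ) M X hX2
  have hycast : (2 : ℝ) ^ 2 ^ r = y := by
    rw [hy]
    push_cast
    rfl
  rw [hz, hycast] at hsur
  set z := y ^ 2 with hzdef
  have hy0 : (0 : ℝ) < y := by exact_mod_cast hy1
  have hzX : z ≤ X := by
    refine le_trans ?_ hrX
    rw [hz]
    calc z = z ^ 1 := (pow_one z).symm
      _ ≤ z ^ c₂ := Nat.pow_le_pow_right (Nat.pow_pos hy1) (by omega)
  have hz0 : (0 : ℝ) < z := by exact_mod_cast Nat.pow_pos hy1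
  have hX0 : (0 : ℝ) < X := by
    have : (z : ℝ) ≤ X := by exact_mod_cast hzX
    linarith
  by_contra hcon
  push Not at hcon
  classical
  have hsub : surv (Om B) z M X ⊆ ((bad A B).filter (fun p => z ≤ p)).biUnion
      (fun p => kill B M X p) := by
    intro n hn
    by_contra hnot
    have h5 : ∀ p ∈ bad A B, z ≤ p → n ∉ kill B M X p := by
      intro p hp hzp hk
      apply hnot
      rw [Finset.mem_biUnion]
      exact ⟨p, Finset.mem_filter.2 ⟨hp, hzp⟩, hk⟩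
    obtain ⟨h6, h7⟩ := exists_new hG hne hM hn h5
    obtain ⟨⟨h8, h9⟩, _⟩ := mem_surv.1 hn
    exact hcon n h8 h9 h6 h7
  have h5 := (Finset.card_le_card hsub).trans Finset.card_biUnion_le
  have h6 : ((surv (Om B) z M X).card : ℝ) ≤
      ∑ p ∈ (bad A B).filter (fun p => z ≤ p), ((kill B M X p).card : ℝ) := by exact_mod_cast h5
  have h7 : ∀ p ∈ (bad A B).filter (fun p => z ≤ p), ((kill B M X p).card : ℝ) ≤
      κ * (2 * (X / z)) := by
    intro p hp
    rw [Finset.mem_filter] at hp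
    have hzp : (z : ℝ) ≤ p := by exact_mod_cast hp.2
    have hp0 : 0 < p := by
      have := Nat.pow_pos (n := 2) hy1
      omega
    refine (card_kill hp0).trans ?_
    have e1 : (B.card : ℝ) ≤ κ := by exact_mod_cast hBκ
    have e2 : (X : ℝ) / p ≤ X / z := div_le_div_of_nonneg_left hX0.le hz0 hzp
    have e3 : (1 : ℝ) ≤ X / z := by
      rw [one_le_div hz0]
      exact_mod_cast hzX
    have e4 : (X : ℝ) / p + 1 ≤ 2 * (X / z) := by linarith
    exact mul_le_mul e1 e4 (by positivity) (by positivity)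
  have h8 := Finset.sum_le_sum h7
  rw [Finset.sum_const, nsmul_eq_mul] at h8
  have h9 : (((bad A B).filter (fun p => z ≤ p)).card : ℝ) ≤ κ ^ 2 * w := by
    have e1 : ((bad A B).filter (fun p => z ≤ p)).card ≤ (A.card + B.card) * B.card * L :=
      (Finset.card_filter_le _ _).trans (card_bad h1 h2)
    have e2 : (A.card + B.card) * B.card * L ≤ κ ^ 2 * w := by
      have e3 : A.card + B.card ≤ κ * (A.card + 1) := by nlinarith
      calc (A.card + B.card) * B.card * L ≤ (κ * (A.card + 1)) * κ * (L + 1) := by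
            apply Nat.mul_le_mul _ (by omega)
            exact Nat.mul_le_mul e3 hBκ
        _ = κ ^ 2 * w := by rw [hw]; ring
    exact_mod_cast e1.trans e2
  have h10 : (X : ℝ) / y ≤ κ ^ 2 * w * (κ * (2 * (X / z))) := by
    refine (hsur.trans (h6.trans h8)).trans ?_
    exact mul_le_mul_of_nonneg_right h9 (by positivity)
  have h11 : (κ : ℝ) ^ 2 * w * (κ * (2 * (X / z))) = (2 * κ ^ 3 * w) * (X / z) := by ring
  rw [h11] at h10
  have h12 : (2 * (κ : ℝ) ^ 3 * w) < y := by exact_mod_cast hkey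
  have h13 : (2 * (κ : ℝ) ^ 3 * w) * (X / z) < y * (X / z) :=
    mul_lt_mul_of_pos_right h12 (div_pos hX0 hz0)
  have h14 : (y : ℝ) * (X / z) = X / y := by
    have : (z : ℝ) = (y : ℝ) ^ 2 := by
      rw [hzdef]
      push_cast
      rfl
    rw [this]
    field_simp
  linarith

end Pool.Agent.Helper90.Straus
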