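import Mathlib
import Pool.Agent.Helper90.Straus.Ext

set_option autoImplicit false

namespace Pool.Agent.Helper90.Straus

open Finset

/-- The primes dividing an old sum or a difference of two elements of `A`, and the small primes. -/
def badB (A B : Finset ℕ) : Finset ℕ :=
  ((A ×ˢ B).biUnion (fun x => (x.1 + x.2).primeFactors) ∪
    (A ×ˢ A).biUnion (fun x => (x.1 - x.2).primeFactors)) ∪
    (range (B.card + 2)).filter Nat.Prime

theorem badB_prime {A B : Finset ℕ} {p : ℕ} (hp : p ∈ badB A B) : p.Prime := by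
  unfold badB at hp
  rw [Finset.mem_union, Finset.mem_union, Finset.mem_biUnion, Finset.mem_biUnion,
    Finset.mem_filter] at hp
  rcases hp with (⟨x, _, h⟩ | ⟨x, _, h⟩) | h
  · exact Nat.prime_of_mem_primeFactors h
  · exact Nat.prime_of_mem_primeFactors h
  · exact h.2

theorem badB_le {A B : Finset ℕ} {L : ℕ} (h1 : ∀ a ∈ A, ∀ b ∈ B, a + b ≤ 2 ^ L)
    (h2 : ∀ a ∈ A, a ≤ 2 ^ L) {p : ℕ} (hp : p ∈ badB A B) : p ≤ 2 ^ (L + B.card + 2) := by
  have h3 : 2 ^ L ≤ 2 ^ (L + B.card + 2) := Nat.pow_le_pow_right (by norm_num) (by omega)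
  unfold badB at hp
  rw [Finset.mem_union, Finset.mem_union, Finset.mem_biUnion, Finset.mem_biUnion,
    Finset.mem_filter] at hp
  rcases hp with (⟨x, hx, h⟩ | ⟨x, hx, h⟩) | h
  · rw [Finset.mem_product] at hx
    exact (Nat.le_of_mem_primeFactors h).trans ((h1 _ hx.1 _ hx.2).trans h3)
  · rw [Finset.mem_product] at hx
    exact (Nat.le_of_mem_primeFactors h).trans (((Nat.sub_le _ _).trans (h2 _ hx.1)).trans h3)
  · have h4 := Finset.mem_range.1 h.1
    have h5 : B.card + 2 < 2 ^ (B.card + 2) := Nat.lt_two_pow_self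
    have h6 : 2 ^ (B.card + 2) ≤ 2 ^ (L + B.card + 2) :=
      Nat.pow_le_pow_right (by norm_num) (by omega)
    omega

theorem card_badB {A B : Finset ℕ} {L : ℕ} (h1 : ∀ a ∈ A, ∀ b ∈ B, a + b ≤ 2 ^ L)
    (h2 : ∀ a ∈ A, a ≤ 2 ^ L) :
    (badB A B).card ≤ (A.card + B.card) * A.card * L + (B.card + 2) := by
  unfold badB
  refine (Finset.card_union_le _ _).trans ?_
  have e1 : ((A ×ˢ B).biUnion (fun x => (x.1 + x.2).primeFactors)).card ≤ (A ×ˢ B).card * L := by
    apply Finset.card_biUnion_le_card_mul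
    intro x hx
    rw [Finset.mem_product] at hx
    exact card_primeFactors_le (h1 _ hx.1 _ hx.2)
  have e2 : ((A ×ˢ A).biUnion (fun x => (x.1 - x.2).primeFactors)).card ≤ (A ×ˢ A).card * L := by
    apply Finset.card_biUnion_le_card_mul
    intro x hx
    rw [Finset.mem_product] at hx
    exact card_primeFactors_le ((Nat.sub_le _ _).trans (h2 _ hx.1))
  have e3 : ((range (B.card + 2)).filter Nat.Prime).card ≤ B.card + 2 := by
    have := Finset.card_filter_le (range (B.card + 2)) Nat.Prime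
    rwa [Finset.card_range] at this
  rw [Finset.card_product] at e1 e2
  have e4 := Finset.card_union_le ((A ×ˢ B).biUnion (fun x => (x.1 + x.2).primeFactors))
    ((A ×ˢ A).biUnion (fun x => (x.1 - x.2).primeFactors))
  have e5 : (A.card + B.card) * A.card * L = A.card * B.card * L + A.card * A.card * L := by ring
  omega

theorem prod_badB {A B : Finset ℕ} {L : ℕ} (h1 : ∀ a ∈ A, ∀ b ∈ B, a + b ≤ 2 ^ L)
    (h2 : ∀ a ∈ A, a ≤ 2 ^ L) :
    ∏ p ∈ badB A B, p ≤ 2 ^ (((A.card + B.card + 2) * (L + B.card + 2)) ^ 2) := by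
  calc ∏ p ∈ badB A B, p ≤ ∏ _p ∈ badB A B, 2 ^ (L + B.card + 2) :=
        Finset.prod_le_prod' fun p hp => badB_le h1 h2 hp
    _ = 2 ^ ((L + B.card + 2) * (badB A B).card) := by
        rw [Finset.prod_const, ← pow_mul]
    _ ≤ _ := by
        apply Nat.pow_le_pow_right (by norm_num)
        have h3 := card_badB h1 h2
        set α := A.card
        set β := B.card
        have h4 : (α + β) * α * L + (β + 2) ≤ (α + β + 2) ^ 2 * (L + β + 2) := by
          have e1 : (α + β) * α ≤ (α + β + 2) ^ 2 := by nlinarith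
          have e2 : (α + β) * α * L ≤ (α + β + 2) ^ 2 * L := Nat.mul_le_mul_right _ e1
          have e3 : 1 ≤ (α + β + 2) ^ 2 := Nat.one_le_pow _ _ (by omega)
          have e4 : 1 * (β + 2) ≤ (α + β + 2) ^ 2 * (β + 2) := Nat.mul_le_mul_right _ e3
          have e5 : (α + β + 2) ^ 2 * (L + β + 2) =
            (α + β + 2) ^ 2 * L + (α + β + 2) ^ 2 * (β + 2) := by ring
          omega
        calc (L + β + 2) * (badB A B).card ≤ (L + β + 2) * ((α + β + 2) ^ 2 * (L + β + 2)) :=
              Nat.mul_le_mul_left _ (h3.trans h4)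
          _ = ((α + β + 2) * (L + β + 2)) ^ 2 := by ring

theorem good_class {A B : Finset ℕ} (hG : Good A B) (h2 : 2 ≤ B.card) {p : ℕ} (hp : p.Prime) :
    ∃ b ∈ B, ∀ a ∈ A, ¬ p ∣ a + b := by
  obtain ⟨b₁, hb₁, b₂, hb₂, hne⟩ := Finset.one_lt_card.1 (show 1 < B.card by omega)
  by_cases h : ∀ a ∈ A, ¬ p ∣ a + b₁
  · exact ⟨b₁, hb₁, h⟩
  · push Not at h
    obtain ⟨a, ha, hd⟩ := h
    refine ⟨b₂, hb₂, fun a' ha' hd' => ?_⟩
    have h3 := hG.2 a ha b₁ hb₁ a' ha' b₂ hb₂ (Or.inr hne)
    exact Nat.Prime.not_coprime_iff_dvd.2 ⟨p, hp, hd, hd'⟩ h3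

/-- **Extension of `B`.** -/
theorem ext_B {A B : Finset ℕ} (hG : Good A B) (hB : Adm B) (hcard : 2 ≤ B.card) {L : ℕ}
    (h1 : ∀ a ∈ A, ∀ b ∈ B, a + b ≤ 2 ^ L) (h2 : ∀ a ∈ A, a ≤ 2 ^ L) {T : ℕ} (hT : 2 ≤ T)
    (hTB : ∀ b ∈ B, b < T) :
    ∃ b, T ≤ b ∧ b < T + 2 ^ (((A.card + B.card + 2) * (L + B.card + 2)) ^ 2) ∧ b ∉ B ∧
      Good A (insert b B) ∧ Adm (insert b B) := by
  classical
  have hcl : ∀ p, ∃ b, p.Prime → b ∈ B ∧ ∀ a ∈ A, ¬ p ∣ a + b := by
    intro p
    by_cases hp : p.Prime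
    · obtain ⟨b, hb, h⟩ := good_class hG hcard hp
      exact ⟨b, fun _ => ⟨hb, h⟩⟩
    · exact ⟨0, fun h => absurd h hp⟩
  choose β hβ using hcl
  have hcop : Set.Pairwise (↑(badB A B) : Set ℕ) (Function.onFun Nat.Coprime (fun p : ℕ => p)) := by
    intro p hp q hq hpq
    exact (Nat.coprime_primes (badB_prime (Finset.mem_coe.1 hp))
      (badB_prime (Finset.mem_coe.1 hq))).2 hpq
  obtain ⟨x, hx⟩ := Nat.chineseRemainderOfFinset β (fun p : ℕ => p) (badB A B)
    (fun p hp => (badB_prime hp).ne_zero) hcop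
  set N := ∏ p ∈ badB A B, p with hN
  have hN0 : 0 < N := Finset.prod_pos fun p hp => (badB_prime hp).pos
  set b := T + (x + N * T - T) % N with hb
  have hNT : T ≤ N * T := Nat.le_mul_of_pos_left T hN0
  have hbx : b ≡ x [MOD N] := by
    have h3 : b ≡ T + (x + N * T - T) [MOD N] := Nat.ModEq.add_left T (Nat.mod_modEq _ _)
    have h4 : T + (x + N * T - T) = x + N * T := by omega
    rw [h4] at h3
    refine h3.trans ?_
    have h5 : x + N * T ≡ x + 0 [MOD N] :=
      Nat.ModEq.add_left x ((Nat.modEq_zero_iff_dvd).2 (Dvd.intro T rfl))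
    simp only [add_zero] at h5
    exact h5
  have hbT : T ≤ b := Nat.le_add_right _ _
  have hbp : ∀ p ∈ badB A B, b ≡ β p [MOD p] := by
    intro p hp
    exact (hbx.of_dvd (Finset.dvd_prod_of_mem (fun p : ℕ => p) hp)).trans (hx p hp)
  have hnd : ∀ p ∈ badB A B, ∀ a ∈ A, ¬ p ∣ a + b := by
    intro p hp a ha hd
    have h3 := (hβ p (badB_prime hp)).2 a ha
    apply h3
    rw [← Nat.modEq_zero_iff_dvd] at hd ⊢
    exact ((Nat.ModEq.add_left a (hbp p hp)).symm).trans hd
  have hbB : b ∉ B := fun h => absurd (hTB b h) (by omega)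
  have hbad1 : ∀ p, p.Prime → ∀ a ∈ A, ∀ b ∈ B, p ∣ a + b → p ∈ badB A B := by
    intro p hp a ha b hb hd
    unfold badB
    rw [Finset.mem_union, Finset.mem_union, Finset.mem_biUnion]
    left; left
    refine ⟨(a, b), Finset.mem_product.2 ⟨ha, hb⟩, ?_⟩
    rw [Nat.mem_primeFactors]
    refine ⟨hp, hd, ?_⟩
    have := hG.1 a ha b hb
    simp only
    omega
  have hbad2 : ∀ p, p.Prime → ∀ a ∈ A, ∀ a' ∈ A, a' < a → p ∣ a - a' → p ∈ badB A B := by
    intro p hp a ha a' ha' hlt hd
    unfold badB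
    rw [Finset.mem_union, Finset.mem_union, Finset.mem_biUnion, Finset.mem_biUnion]
    left; right
    refine ⟨(a, a'), Finset.mem_product.2 ⟨ha, ha'⟩, ?_⟩
    rw [Nat.mem_primeFactors]
    refine ⟨hp, hd, ?_⟩
    simp only
    omega
  have hcopA : ∀ a ∈ A, ∀ a' ∈ A, ∀ b' ∈ B, Nat.Coprime (a + b) (a' + b') := by
    intro a ha a' ha' b' hb'
    by_contra hcon
    obtain ⟨p, hp, hp1, hp2⟩ := Nat.Prime.not_coprime_iff_dvd.1 hcon
    exact hnd p (hbad1 p hp a' ha' b' hb' hp2) a ha hp1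
  have hcopB : ∀ a ∈ A, ∀ a' ∈ A, a ≠ a' → Nat.Coprime (a + b) (a' + b) := by
    intro a ha a' ha' hne
    by_contra hcon
    obtain ⟨p, hp, hp1, hp2⟩ := Nat.Prime.not_coprime_iff_dvd.1 hcon
    rcases lt_or_gt_of_ne hne with h | h
    · have h3 := Nat.dvd_sub hp2 hp1
      have h4 : a' + b - (a + b) = a' - a := by omega
      rw [h4] at h3
      exact hnd p (hbad2 p hp a' ha' a ha h h3) a ha hp1
    · have h3 := Nat.dvd_sub hp1 hp2
      have h4 : a + b - (a' + b) = a - a' := by omega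
      rw [h4] at h3
      exact hnd p (hbad2 p hp a ha a' ha' h h3) a ha hp1
  refine ⟨b, hbT, ?_, hbB, ⟨?_, ?_⟩, ?_⟩
  · have h3 : (x + N * T - T) % N < N := Nat.mod_lt _ hN0
    have h4 : N ≤ _ := prod_badB h1 h2
    omega
  · intro a ha b' hb'
    rw [Finset.mem_insert] at hb'
    rcases hb' with h | hb'
    · omega
    · exact hG.1 a ha b' hb'
  · intro a ha b₁ hb₁ a' ha' b₂ hb₂ hne
    rw [Finset.mem_insert] at hb₁ hb₂
    rcases hb₁ with h3 | hb₁
    · rcases hb₂ with h4 | hb₂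
      · rw [h3, h4]
        apply hcopB a ha a' ha'
        rcases hne with h | h
        · exact h
        · exact absurd (h3.trans h4.symm) h
      · rw [h3]
        exact hcopA a ha a' ha' b₂ hb₂
    · rcases hb₂ with h4 | hb₂
      · rw [h4]
        exact (hcopA a' ha' a ha b₁ hb₁).symm
      · exact hG.2 a ha b₁ hb₁ a' ha' b₂ hb₂ hne
  · intro p hp
    by_cases hpb : p ∈ badB A B
    · obtain ⟨c, hc⟩ := hB p hp
      refine ⟨c, fun b' hb' => ?_⟩
      rw [Finset.mem_insert] at hb'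
      rcases hb' with h | hb'
      · rw [h]
        intro hd
        apply hc (β p) (hβ p hp).1
        rw [← Nat.modEq_zero_iff_dvd] at hd ⊢
        exact ((Nat.ModEq.add_left c (hbp p hpb)).symm).trans hd
      · exact hc b' hb'
    · have hpl : B.card + 2 ≤ p := by
        by_contra hcon
        apply hpb
        unfold badB
        rw [Finset.mem_union, Finset.mem_filter, Finset.mem_range]
        exact Or.inr ⟨by omega, hp⟩
      have h3 : (Om (insert b B) p).card ≤ B.card + 1 := by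
        have h4 : Om (insert b B) p ⊆ (insert b B).image (fun b => ((p - 1) * b) % p) := by
          intro c hc
          obtain ⟨hcp, b', hb', hd⟩ := mem_Om.1 hc
          rw [Finset.mem_image]
          refine ⟨b', hb', ?_⟩
          have h2 : (p - 1) * b' ≡ c [MOD p] := by
            have h3 : (p - 1) * b' + b' ≡ c + b' [MOD p] := by
              have h4 : (p - 1) * b' + b' = p * b' := by
                have : p - 1 + 1 = p := Nat.sub_add_cancel hp.one_lt.le
                calc (p - 1) * b' + b' = (p - 1 + 1) * b' := by ring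
                  _ = p * b' := by rw [this]
              rw [h4]
              exact ((Nat.modEq_zero_iff_dvd.2 (Dvd.intro b' rfl))).trans
                (Nat.modEq_zero_iff_dvd.2 hd).symm
            exact Nat.ModEq.add_right_cancel' b' h3
          have h5 : ((p - 1) * b') % p = c % p := h2
          rw [h5, Nat.mod_eq_of_lt hcp]
        refine ((Finset.card_le_card h4).trans Finset.card_image_le).trans ?_
        exact Finset.card_insert_le _ _
      have h4 : (Om (insert b B) p).card < (range p).card := by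
        rw [Finset.card_range]
        omega
      obtain ⟨c, hc, hc'⟩ := Finset.exists_mem_notMem_of_card_lt_card h4
      refine ⟨c, fun b' hb' hd => hc' ?_⟩
      rw [mem_Om]
      exact ⟨Finset.mem_range.1 hc, b', hb', hd⟩

end Pool.Agent.Helper90.Straus
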