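import Mathlib
import Pool.Agent.Helper90.Straus.ExtB

set_option autoImplicit false

namespace Pool.Agent.Helper90.Straus

open Finset

/-- Checkpoints `n` and targets `F`. -/
structure Growth (n F : ℕ → ℕ) : Prop where
  two_le : ∀ t, 2 ≤ n t
  lt_succ : ∀ t, n t < n (t + 1)
  le_two : ∀ t, n (t + 1) ≤ 2 * n t
  mono : Monotone F
  unb : ∀ m, ∃ t, m ≤ F t
  big : ∀ c : ℕ, ∃ t₀, ∀ t ≥ t₀, ((F t + 1) * (Nat.log 2 (n t) + 1)) ^ c ≤ n (t + 1) - n t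

namespace Growth

variable {n F : ℕ → ℕ} (h : Growth n F)
include h

theorem n_mono : StrictMono n := strictMono_nat_of_lt_succ h.lt_succ

theorem le_n (t : ℕ) : t ≤ n t := h.n_mono.le_apply

theorem big' (C c : ℕ) : ∃ t₀, ∀ t ≥ t₀,
    ((F t + C) * (Nat.log 2 (n t) + C)) ^ c ≤ n (t + 1) - n t := by
  obtain ⟨t₁, ht₁⟩ := h.big (2 * c)
  obtain ⟨t₂, ht₂⟩ := h.unb ((C + 1) ^ 2)
  refine ⟨max t₁ t₂, fun t ht => ?_⟩
  have h1 := ht₁ t ((le_max_left _ _).trans ht)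
  have h2 : (C + 1) ^ 2 ≤ F t := ht₂.trans (h.mono ((le_max_right _ _).trans ht))
  refine le_trans ?_ h1
  rw [pow_mul]
  apply Nat.pow_le_pow_left
  set f := F t
  set l := Nat.log 2 (n t)
  have h3 : f + C ≤ (C + 1) * (f + 1) := by nlinarith
  have h4 : l + C ≤ (C + 1) * (l + 1) := by nlinarith
  calc (f + C) * (l + C) ≤ ((C + 1) * (f + 1)) * ((C + 1) * (l + 1)) := Nat.mul_le_mul h3 h4
    _ = (C + 1) ^ 2 * ((f + 1) * (l + 1)) := by ring
    _ ≤ ((f + 1) * (l + 1)) * ((f + 1) * (l + 1)) := by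
        apply Nat.mul_le_mul_right
        nlinarith
    _ = ((f + 1) * (l + 1)) ^ 2 := by ring

theorem gap_unb (m : ℕ) : ∃ t₀, ∀ t ≥ t₀, m ≤ n (t + 1) - n t := by
  obtain ⟨t₁, ht₁⟩ := h.big' m 1
  refine ⟨t₁, fun t ht => le_trans ?_ (ht₁ t ht)⟩
  rw [pow_one]
  have h2 := (h.two_le t)
  have h3 : 1 ≤ Nat.log 2 (n t) := Nat.log_pos (by norm_num) h2
  nlinarith

theorem log_mono {s t : ℕ} (hst : s ≤ t) : Nat.log 2 (n s) ≤ Nat.log 2 (n t) :=
  Nat.log_mono_right (h.n_mono.monotone hst)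

omit h in
theorem n_lt (t : ℕ) : n t < 2 ^ (Nat.log 2 (n t) + 1) := Nat.lt_pow_succ_log_self (by norm_num) _

theorem n_succ_le (t : ℕ) : n (t + 1) ≤ 2 ^ (Nat.log 2 (n t) + 2) := by
  have h1 := h.le_two t
  have h2 := n_lt (n := n) t
  calc n (t + 1) ≤ 2 * n t := h1
    _ ≤ 2 * 2 ^ (Nat.log 2 (n t) + 1) := Nat.mul_le_mul_left _ h2.le
    _ = 2 ^ (Nat.log 2 (n t) + 2) := by ring

end Growth

/-- From time `t` on every block allows one more element of `A`. -/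
def Ready (n F : ℕ → ℕ) (t : ℕ) (B : Finset ℕ) : Prop :=
  ∀ t' ≥ t, ∀ A : Finset ℕ, (∀ a ∈ A, a < n (t' + 1)) → A.card ≤ 4 * F t' → Good A B →
    ∃ a, n t' ≤ a ∧ a < n (t' + 1) ∧ a ∉ A ∧ Good (insert a A) B

theorem Ready.mono {n F : ℕ → ℕ} {s t : ℕ} {B : Finset ℕ} (h : Ready n F s B) (hst : s ≤ t) :
    Ready n F t B := fun t' ht' => h t' (hst.trans ht')

theorem two_pow_add {a b : ℕ} : 2 ^ a + 2 ^ b ≤ 2 ^ (a + b + 1) := by
  have h1 : 2 ^ a ≤ 2 ^ (a + b) := Nat.pow_le_pow_right (by norm_num) (by omega)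
  have h2 : 2 ^ b ≤ 2 ^ (a + b) := Nat.pow_le_pow_right (by norm_num) (by omega)
  calc 2 ^ a + 2 ^ b ≤ 2 ^ (a + b) + 2 ^ (a + b) := add_le_add h1 h2
    _ = 2 ^ (a + b + 1) := by ring

theorem ready_of (κ : ℕ) (hκ : 1 ≤ κ) : ∃ c : ℕ, ∀ (n F : ℕ → ℕ), Growth n F → ∀ (B : Finset ℕ) (β t : ℕ),
    Adm B → B.Nonempty → B.card ≤ κ → (∀ b ∈ B, b ≤ 2 ^ β) →
    (∀ t' ≥ t, c ≤ n (t' + 1) - n t' ∧
      ((4 * F t' + 1) * (Nat.log 2 (n t') + β + 4)) ^ c ≤ n (t' + 1) - n t') →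
    Ready n F t B := by
  obtain ⟨c, hc⟩ := ext_A hκ
  refine ⟨c, fun n F h B β t hB hne hBκ hβ hX t' ht' A hA hcard hG => ?_⟩
  obtain ⟨h1, h2⟩ := hX t' ht'
  have hlt := h.lt_succ t'
  have hL : n (t' + 1) + 2 ^ β ≤ 2 ^ (Nat.log 2 (n t') + β + 3) := by
    have h3 := h.n_succ_le t'
    have h4 := two_pow_add (a := Nat.log 2 (n t') + 2) (b := β)
    have h5 : Nat.log 2 (n t') + 2 + β + 1 = Nat.log 2 (n t') + β + 3 := by ring
    rw [h5] at h4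
    omega
  obtain ⟨a, ha1, ha2, ha3, ha4⟩ := hc A B hG hB hne hBκ (n t') (n (t' + 1) - n t')
    (Nat.log 2 (n t') + β + 3) (h.two_le t')
    (fun a ha b hb => by
      have e1 := hA a ha
      have e2 := hβ b hb
      omega)
    (fun b hb => by
      have e2 := hβ b hb
      omega)
    h1 (le_trans (Nat.pow_le_pow_left (by
      apply Nat.mul_le_mul
      · omega
      · omega) _) h2)
  exact ⟨a, ha1, by omega, ha3, ha4⟩

theorem exists_beta (B : Finset ℕ) : ∃ β, ∀ b ∈ B, b ≤ 2 ^ β := by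
  refine ⟨B.sup id, fun b hb => ?_⟩
  have h1 : b ≤ B.sup id := Finset.le_sup (f := id) hb
  exact h1.trans Nat.lt_two_pow_self.le

theorem ready_ev {n F : ℕ → ℕ} (h : Growth n F) {B : Finset ℕ} (hB : Adm B) (hne : B.Nonempty) :
    ∃ t₀, Ready n F t₀ B := by
  obtain ⟨c, hc⟩ := ready_of B.card (Finset.card_pos.2 hne)
  obtain ⟨β, hβ⟩ := exists_beta B
  obtain ⟨t₁, ht₁⟩ := h.big' (β + 4) (2 * c)
  obtain ⟨t₂, ht₂⟩ := h.gap_unb c
  refine ⟨max t₁ t₂, hc n F h B β _ hB hne le_rfl hβ fun t' ht' => ⟨ht₂ t' ((le_max_right _ _).trans ht'),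
    le_trans ?_ (ht₁ t' ((le_max_left _ _).trans ht'))⟩⟩
  rw [pow_mul]
  apply Nat.pow_le_pow_left
  set f := F t'
  set l := Nat.log 2 (n t')
  have h1 : 4 * f + 1 ≤ (f + (β + 4)) * (l + (β + 4)) := by
    calc 4 * f + 1 ≤ (f + (β + 4)) * 4 := by omega
      _ ≤ _ := Nat.mul_le_mul_left _ (by omega)
  have h2 : l + β + 4 ≤ (f + (β + 4)) * (l + (β + 4)) := by
    calc l + β + 4 = l + (β + 4) := by ring
      _ ≤ _ := Nat.le_mul_of_pos_left _ (by omega)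
  calc (4 * f + 1) * (l + β + 4) ≤ ((f + (β + 4)) * (l + (β + 4))) * ((f + (β + 4)) * (l + (β + 4))) :=
        Nat.mul_le_mul h1 h2
    _ = ((f + (β + 4)) * (l + (β + 4))) ^ 2 := by ring

/-- The arithmetic in the step for `B`. -/
theorem arith_B {α κ l β E f l' C : ℕ} (hC : C = β + κ + 8) (hE : E = ((α + κ + 2) * (l + β + 2 + κ + 2)) ^ 2)
    (hα : α ≤ 4 * f) (hl : l ≤ l') :
    (4 * f + 1) * (l' + (l + 1 + E + 1) + 4) ≤ ((f + C) * (l' + C)) ^ 8 := by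
  obtain ⟨Y, hY⟩ : ∃ Y, Y = (f + C) * (l' + C) := ⟨_, rfl⟩
  rw [← hY]
  have hY1 : f + C ≤ Y := by
    rw [hY]
    exact Nat.le_mul_of_pos_right _ (by omega)
  have hY2 : l' + C ≤ Y := by
    rw [hY]
    exact Nat.le_mul_of_pos_left _ (by omega)
  have hY8 : 8 ≤ Y := by omega
  have hE1 : E ≤ 16 * Y ^ 2 := by
    have e1 : (α + κ + 2) * (l + β + 2 + κ + 2) ≤ 4 * Y := by
      calc (α + κ + 2) * (l + β + 2 + κ + 2) ≤ (4 * (f + C)) * (l' + C) := by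
            apply Nat.mul_le_mul
            · omega
            · omega
        _ = 4 * Y := by rw [hY]; ring
    calc E = ((α + κ + 2) * (l + β + 2 + κ + 2)) ^ 2 := hE
      _ ≤ (4 * Y) ^ 2 := Nat.pow_le_pow_left e1 2
      _ = 16 * Y ^ 2 := by ring
  have h8 : (4 * f + 1) ≤ 4 * Y := by omega
  have h9 : l' + (l + 1 + E + 1) + 4 ≤ 16 * Y ^ 2 + 2 * Y := by omega
  have h10 : 16 * Y ^ 2 + 2 * Y ≤ 3 * Y ^ 3 := by
    have e1 : 8 * Y ^ 2 ≤ Y ^ 3 := by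
      calc 8 * Y ^ 2 ≤ Y * Y ^ 2 := Nat.mul_le_mul_right _ hY8
        _ = Y ^ 3 := by ring
    have e2 : Y ≤ Y ^ 2 := Nat.le_self_pow (by norm_num) _
    omega
  calc (4 * f + 1) * (l' + (l + 1 + E + 1) + 4) ≤ (4 * Y) * (3 * Y ^ 3) :=
        Nat.mul_le_mul h8 (h9.trans h10)
    _ = 12 * Y ^ 4 := by ring
    _ ≤ Y ^ 4 * Y ^ 4 := by
        have h12 : 12 ≤ Y ^ 4 := by
          calc 12 ≤ Y * Y := by nlinarith
            _ = Y ^ 2 := by ring
            _ ≤ Y ^ 4 := Nat.pow_le_pow_right (by omega) (by norm_num)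
        exact Nat.mul_le_mul_right _ h12
    _ = Y ^ 8 := by ring

/-- Eventually a new element of `B` can be added. -/
theorem decide_ev {n F : ℕ → ℕ} (h : Growth n F) {B : Finset ℕ} (hB : Adm B) (h2 : 2 ≤ B.card) :
    ∃ t₀, ∀ t ≥ t₀, ∀ A : Finset ℕ, (∀ a ∈ A, a < n t) → A.card ≤ 4 * F t → Good A B →
      ∃ b, n t ≤ b ∧ b ∉ B ∧ Good A (insert b B) ∧ Adm (insert b B) ∧ Ready n F t (insert b B) := by
  obtain ⟨κ, hκ⟩ : ∃ κ, κ = B.card := ⟨_, rfl⟩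
  obtain ⟨c, hc⟩ := ready_of (κ + 1) (by omega)
  obtain ⟨β, hβ⟩ := exists_beta B
  obtain ⟨C, hC⟩ : ∃ C, C = β + κ + 8 := ⟨_, rfl⟩
  obtain ⟨t₁, ht₁⟩ := h.big' C (8 * c)
  obtain ⟨t₂, ht₂⟩ := h.gap_unb c
  refine ⟨max (max t₁ t₂) (2 ^ β + 1), fun t ht A hA hcard hG => ?_⟩
  have htβ : 2 ^ β + 1 ≤ n t := by
    have := (le_max_right _ _).trans ht
    exact this.trans (h.le_n t)
  obtain ⟨l, hl⟩ : ∃ l, l = Nat.log 2 (n t) := ⟨_, rfl⟩
  have hnt : n t < 2 ^ (l + 1) := by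
    rw [hl]
    exact Growth.n_lt t
  have hL : n t + 2 ^ β ≤ 2 ^ (l + β + 2) := by
    have h4 := two_pow_add (a := l + 1) (b := β)
    have h5 : l + 1 + β + 1 = l + β + 2 := by ring
    rw [h5] at h4
    omega
  obtain ⟨b, hb1, hb2, hb3, hb4, hb5⟩ := ext_B hG hB h2 (L := l + β + 2)
    (fun a ha b hb => by
      have e1 := hA a ha
      have e2 := hβ b hb
      omega)
    (fun a ha => by
      have e1 := hA a ha
      exact e1.le.trans ((Nat.le_add_right _ _).trans hL)) (T := n t) (h.two_le t)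
    (fun b hb => by
      have e2 := hβ b hb
      omega)
  refine ⟨b, hb1, hb3, hb4, hb5, ?_⟩
  rw [← hκ] at hb2
  obtain ⟨E, hE⟩ : ∃ E, E = ((A.card + κ + 2) * (l + β + 2 + κ + 2)) ^ 2 := ⟨_, rfl⟩
  rw [← hE] at hb2
  have hβE : β ≤ E := by
    rw [hE]
    refine le_trans ?_ (Nat.le_self_pow (by norm_num) _)
    refine le_trans ?_ (Nat.le_mul_of_pos_left _ (by omega))
    omega
  have hbE : b ≤ 2 ^ (l + 1 + E + 1) := by
    have h4 := two_pow_add (a := l + 1) (b := E)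
    omega
  apply hc n F h (insert b B) (l + 1 + E + 1) t hb5 (Finset.insert_nonempty _ _)
  · rw [Finset.card_insert_of_notMem hb3, hκ]
  · intro b' hb'
    rw [Finset.mem_insert] at hb'
    rcases hb' with h6 | hb'
    · rw [h6]
      exact hbE
    · exact (hβ b' hb').trans (Nat.pow_le_pow_right (by norm_num) (by omega))
  · intro t' ht'
    have hmax : max t₁ t₂ ≤ t' := ((le_max_left _ _).trans ht).trans ht'
    refine ⟨ht₂ t' ((le_max_right _ _).trans hmax), ?_⟩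
    refine le_trans ?_ (ht₁ t' ((le_max_left _ _).trans hmax))
    rw [pow_mul]
    apply Nat.pow_le_pow_left
    have hF : F t ≤ F t' := h.mono ht'
    have hll : l ≤ Nat.log 2 (n t') := by
      rw [hl]
      exact h.log_mono ht'
    exact arith_B hC hE (by omega) hll

end Pool.Agent.Helper90.Straus
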