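import Mathlib
import Pool.Agent.Helper90.Straus.Rec

set_option autoImplicit false

namespace Pool.Agent.Helper90.Straus

open Finset

/-- The invariant of the construction at time `t`. -/
structure Inv (n F : ℕ → ℕ) (t : ℕ) (A B : Finset ℕ) : Prop where
  good : Good A B
  adm : Adm B
  two : 2 ≤ B.card
  le_F : B.card ^ 2 ≤ F t
  lt_n : ∀ a ∈ A, a < n t
  ready : Ready n F t B
  prod : A.card * B.card ≤ 4 * F t
  small : ∃ b₀, ∀ b ∈ B, b ≠ b₀ → ∀ t', t ≤ t' + 1 → b ≤ n (t' + 1) - n t'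

/-- The condition for adding an element to `B`. -/
def Dec (n F : ℕ → ℕ) (t : ℕ) (A B : Finset ℕ) : Prop :=
  (∀ b ∈ B, ∀ t', t ≤ t' + 1 → b ≤ n (t' + 1) - n t') ∧ A.card * B.card ≤ 2 * F t ∧
  (B.card + 1) ^ 2 ≤ F t ∧
  ∃ b, n t ≤ b ∧ b ∉ B ∧ Good A (insert b B) ∧ Adm (insert b B) ∧ Ready n F t (insert b B)

theorem fill {n F : ℕ → ℕ} {t : ℕ} {B : Finset ℕ} (hR : Ready n F t B)
    (k : ℕ) : ∀ A : Finset ℕ, Good A B → (∀ a ∈ A, a < n (t + 1)) → A.card + k ≤ 4 * F t →
    ∃ A', A ⊆ A' ∧ A'.card = A.card + k ∧ Good A' B ∧ (∀ a ∈ A', a < n (t + 1)) ∧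
      ∀ a ∈ A', a ∉ A → n t ≤ a := by
  induction k with
  | zero =>
    intro A hG hA _
    exact ⟨A, subset_rfl, rfl, hG, hA, fun a ha h => absurd ha h⟩
  | succ k ih =>
    intro A hG hA hk
    obtain ⟨a, ha1, ha2, ha3, ha4⟩ := hR t le_rfl A hA (by omega) hG
    obtain ⟨A', h1, h2, h3, h4, h5⟩ := ih (insert a A) ha4 (by
      intro x hx
      rw [Finset.mem_insert] at hx
      rcases hx with rfl | hx
      · exact ha2
      · exact hA x hx) (by
      rw [Finset.card_insert_of_notMem ha3]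
      omega)
    rw [Finset.card_insert_of_notMem ha3] at h2
    refine ⟨A', (Finset.subset_insert _ _).trans h1, by omega, h3, h4, fun x hx hxA => ?_⟩
    by_cases hxa : x = a
    · rw [hxa]
      exact ha1
    · apply h5 x hx
      rw [Finset.mem_insert]
      rintro (h | h)
      · exact hxa h
      · exact hxA h

/-- One step of the construction. -/
def Step (n F : ℕ → ℕ) (t : ℕ) (A B A' B' : Finset ℕ) : Prop :=
  A ⊆ A' ∧ B ⊆ B' ∧ (∀ a ∈ A', a ∉ A → n t ≤ a) ∧ (∀ b ∈ B', b ∉ B → n (t + 1) ≤ b) ∧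
  F t ≤ A'.card * B.card ∧ A'.card * B.card ≤ 4 * F t ∧
  A'.card * B.card ≤ max (A.card * B.card) (2 * F t) ∧ (Dec n F (t + 1) A' B → B' ≠ B)

theorem step {n F : ℕ → ℕ} (h : Growth n F) {t : ℕ} {A B : Finset ℕ} (hI : Inv n F t A B) :
    ∃ A' B', Step n F t A B A' B' ∧ Inv n F (t + 1) A' B' := by
  have hβ : 0 < B.card := by
    have := hI.two
    omega
  -- the target
  obtain ⟨m', hm'⟩ : ∃ m', m' = (F t + B.card - 1) / B.card := ⟨_, rfl⟩
  have hm1 : F t ≤ m' * B.card := by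
    rw [hm']
    have h1 := Nat.div_add_mod (F t + B.card - 1) B.card
    have h2 := Nat.mod_lt (F t + B.card - 1) hβ
    have h3 : (F t + B.card - 1) / B.card * B.card =
      B.card * ((F t + B.card - 1) / B.card) := by ring
    omega
  have hm2 : m' * B.card ≤ F t + B.card - 1 := by
    rw [hm']
    exact Nat.div_mul_le_self _ _
  obtain ⟨m, hm⟩ : ∃ m, m = max A.card m' := ⟨_, rfl⟩
  have hmB : m * B.card = max (A.card * B.card) (m' * B.card) := by
    rw [hm]
    exact max_mul_of_nonneg _ _ (Nat.zero_le _)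
  have hle : B.card ≤ F t := (Nat.le_self_pow (by norm_num) _).trans hI.le_F
  have hmB2 : m * B.card ≤ max (A.card * B.card) (2 * F t) := by
    rw [hmB]
    exact max_le_max le_rfl (by omega)
  have hmB4 : m * B.card ≤ 4 * F t := hmB2.trans (max_le hI.prod (by omega))
  have hmF : m ≤ 4 * F t := (Nat.le_mul_of_pos_right _ hβ).trans hmB4
  have hAm : A.card ≤ m := by
    rw [hm]
    exact le_max_left _ _
  obtain ⟨A', h1, h2, h3, h4, h5⟩ := fill hI.ready (m - A.card) A hI.good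
    (fun a ha => (hI.lt_n a ha).trans (h.lt_succ t)) (by omega)
  have hcard : A'.card = m := by omega
  rw [← hcard] at hmB hmB2 hmB4
  have hFA : F t ≤ A'.card * B.card := by
    rw [hmB]
    exact hm1.trans (le_max_right _ _)
  have hmono : F t ≤ F (t + 1) := h.mono (Nat.le_succ t)
  by_cases hD : Dec n F (t + 1) A' B
  · obtain ⟨d1, d2, d3, b, d4, d5, d6, d7, d8⟩ := hD
    refine ⟨A', insert b B, ⟨h1, Finset.subset_insert _ _, h5, ?_, hFA, hmB4, hmB2, ?_⟩,
      ⟨d6, d7, ?_, ?_, h4, d8, ?_, ?_⟩⟩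
    · intro b' hb' hb'B
      rw [Finset.mem_insert] at hb'
      rcases hb' with rfl | hb'
      · exact d4
      · exact absurd hb' hb'B
    · intro _ heq
      exact d5 (by rw [← heq]; exact Finset.mem_insert_self _ _)
    · rw [Finset.card_insert_of_notMem d5]
      have := hI.two
      omega
    · rw [Finset.card_insert_of_notMem d5]
      exact d3
    · rw [Finset.card_insert_of_notMem d5]
      calc A'.card * (B.card + 1) ≤ A'.card * (2 * B.card) := Nat.mul_le_mul_left _ (by omega)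
        _ = 2 * (A'.card * B.card) := by ring
        _ ≤ 2 * (2 * F (t + 1)) := Nat.mul_le_mul_left _ d2
        _ = 4 * F (t + 1) := by ring
    · refine ⟨b, fun b' hb' hne => ?_⟩
      rw [Finset.mem_insert] at hb'
      rcases hb' with h6 | hb'
      · exact absurd h6 hne
      · exact d1 b' hb'
  · refine ⟨A', B, ⟨h1, subset_rfl, h5, fun b hb hb' => absurd hb hb', hFA, hmB4, hmB2,
      fun h6 => absurd h6 hD⟩, ⟨h3, hI.adm, hI.two, hI.le_F.trans hmono, h4,
      hI.ready.mono (Nat.le_succ t), hmB4.trans (by omega), ?_⟩⟩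
    obtain ⟨b₀, hb₀⟩ := hI.small
    exact ⟨b₀, fun b hb hne t' ht' => hb₀ b hb hne t' (by omega)⟩

/-- The whole construction. -/
theorem exists_seq {n F : ℕ → ℕ} (h : Growth n F) {t₀ : ℕ} {A₀ B₀ : Finset ℕ}
    (hI : Inv n F t₀ A₀ B₀) : ∃ A B : ℕ → Finset ℕ,
    ∀ t ≥ t₀, Inv n F t (A t) (B t) ∧ Step n F t (A t) (B t) (A (t + 1)) (B (t + 1)) := by
  classical
  choose! fA fB hf using fun (t : ℕ) (A B : Finset ℕ) (hI : Inv n F t A B) => step h hI
  obtain ⟨S, hS0, hS⟩ : ∃ S : ℕ → Finset ℕ × Finset ℕ, S 0 = (A₀, B₀) ∧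
      ∀ i, S (i + 1) = (fA (t₀ + i) (S i).1 (S i).2, fB (t₀ + i) (S i).1 (S i).2) :=
    ⟨fun i => Nat.rec (A₀, B₀) (fun i x => (fA (t₀ + i) x.1 x.2, fB (t₀ + i) x.1 x.2)) i,
      rfl, fun _ => rfl⟩
  have hinv : ∀ i, Inv n F (t₀ + i) (S i).1 (S i).2 := by
    intro i
    induction i with
    | zero =>
      rw [hS0]
      exact hI
    | succ i ih =>
      rw [hS]
      exact (hf _ _ _ ih).2
  refine ⟨fun t => (S (t - t₀)).1, fun t => (S (t - t₀)).2, fun t ht => ?_⟩
  obtain ⟨i, rfl⟩ := Nat.exists_eq_add_of_le ht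
  have h1 : t₀ + i - t₀ = i := by omega
  have h2 : t₀ + i + 1 - t₀ = i + 1 := by omega
  simp only [h1, h2]
  refine ⟨hinv i, ?_⟩
  rw [hS]
  exact (hf _ _ _ (hinv i)).1

/-- `B` changes infinitely often. -/
theorem exists_change {n F : ℕ → ℕ} (h : Growth n F) {t₀ : ℕ} {A B : ℕ → Finset ℕ}
    (hAB : ∀ t ≥ t₀, Inv n F t (A t) (B t) ∧ Step n F t (A t) (B t) (A (t + 1)) (B (t + 1)))
    {t₁ : ℕ} (ht₁ : t₀ ≤ t₁) : ∃ t ≥ t₁, B (t + 1) ≠ B t := by
  by_contra hcon
  push Not at hcon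
  have hconst : ∀ t ≥ t₁, B t = B t₁ := by
    intro t ht
    induction t, ht using Nat.le_induction with
    | base => rfl
    | succ t ht ih => rw [hcon t ht, ih]
  have hI₁ := (hAB t₁ ht₁).1
  obtain ⟨s₁, hs₁⟩ := decide_ev h hI₁.adm hI₁.two
  -- the old elements of `B` are small
  obtain ⟨s₂, hs₂⟩ : ∃ s₂, ∀ t ≥ s₂, ∀ b ∈ B t₁, b ≤ n (t + 1) - n t := by
    obtain ⟨s, hs⟩ := h.gap_unb ((B t₁).sup id)
    exact ⟨s, fun t ht b hb => (Finset.le_sup (f := id) hb).trans (hs t ht)⟩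
  -- the target is large
  obtain ⟨s₃, hs₃⟩ := h.unb ((A t₁).card * (B t₁).card + ((B t₁).card + 1) ^ 2)
  have hprod : ∀ t ≥ t₁, (A t).card * (B t₁).card ≤
      max ((A t₁).card * (B t₁).card) (2 * F t) := by
    intro t ht
    induction t, ht using Nat.le_induction with
    | base => exact le_max_left _ _
    | succ t ht ih =>
      obtain ⟨_, _, _, _, _, _, h7, _⟩ := (hAB t (ht₁.trans ht)).2
      rw [hconst t ht] at h7
      have h8 : F t ≤ F (t + 1) := h.mono (Nat.le_succ t)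
      refine h7.trans (max_le (ih.trans (max_le_max le_rfl (by omega))) ?_)
      exact le_trans (by omega) (le_max_right _ _)
  set s := max (max t₁ s₁) (max s₂ s₃) + 1 with hs
  have e1 : t₁ ≤ s := by
    have : t₁ ≤ max (max t₁ s₁) (max s₂ s₃) := (le_max_left _ _).trans (le_max_left _ _)
    omega
  have e2 : s₁ ≤ s + 1 := by
    have : s₁ ≤ max (max t₁ s₁) (max s₂ s₃) := (le_max_right _ _).trans (le_max_left _ _)
    omega
  have e3 : s₂ ≤ s := by
    have : s₂ ≤ max (max t₁ s₁) (max s₂ s₃) := (le_max_left _ _).trans (le_max_right _ _)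
    omega
  have e4 : s₃ ≤ s := by
    have : s₃ ≤ max (max t₁ s₁) (max s₂ s₃) := (le_max_right _ _).trans (le_max_right _ _)
    omega
  have hF : (A t₁).card * (B t₁).card + ((B t₁).card + 1) ^ 2 ≤ F (s + 1) :=
    hs₃.trans (h.mono (by omega))
  have hIs := (hAB (s + 1) (by omega)).1
  have hBs : B (s + 1) = B t₁ := hconst (s + 1) (by omega)
  have hBs' : B s = B t₁ := hconst s e1
  rw [hBs] at hIs
  have hp := hprod (s + 1) (by omega)
  have hp2 : (A (s + 1)).card * (B t₁).card ≤ 2 * F (s + 1) :=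
    hp.trans (max_le (by omega) le_rfl)
  have h4F : (A (s + 1)).card ≤ 4 * F (s + 1) := by
    have h9 := hIs.two
    have h10 : (A (s + 1)).card ≤ (A (s + 1)).card * (B t₁).card :=
      Nat.le_mul_of_pos_right _ (by omega)
    omega
  have hD : Dec n F (s + 1) (A (s + 1)) (B t₁) := by
    refine ⟨fun b hb t' ht' => hs₂ t' (by omega) b hb, hp2, by omega, ?_⟩
    exact hs₁ (s + 1) e2 (A (s + 1)) hIs.lt_n h4F hIs.good
  obtain ⟨_, _, _, _, _, _, _, h8⟩ := (hAB s (by omega)).2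
  rw [hBs'] at h8
  exact h8 hD hBs

theorem adm_zero_two : Adm {0, 2} := by
  intro p hp
  by_cases h2 : p = 2
  · refine ⟨1, fun b hb => ?_⟩
    rw [h2]
    simp only [Finset.mem_insert, Finset.mem_singleton] at hb
    rcases hb with rfl | rfl <;> decide
  · refine ⟨2, fun b hb hd => ?_⟩
    simp only [Finset.mem_insert, Finset.mem_singleton] at hb
    have h3 : p ∣ 2 ^ 2 := by
      rcases hb with rfl | rfl
      · simp only [add_zero] at hd
        exact hd.trans (by norm_num)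
      · exact hd.trans (by norm_num)
    have h4 := hp.dvd_of_dvd_pow h3
    exact h2 ((Nat.prime_dvd_prime_iff_eq hp Nat.prime_two).1 h4)

theorem exists_init {n F : ℕ → ℕ} (h : Growth n F) : ∃ t₀, Inv n F t₀ ∅ {0, 2} := by
  obtain ⟨t₁, ht₁⟩ := ready_ev h adm_zero_two (Finset.insert_nonempty _ _)
  obtain ⟨t₂, ht₂⟩ := h.unb 4
  obtain ⟨t₃, ht₃⟩ := h.gap_unb 2
  refine ⟨max (max t₁ t₂) (t₃ + 1), ⟨?_, ?_⟩, adm_zero_two, ?_, ?_, ?_, ?_, ?_, ?_⟩
  · intro a ha
    simp at ha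
  · intro a ha
    simp at ha
  · decide
  · have : ({0, 2} : Finset ℕ).card = 2 := by decide
    rw [this]
    exact ht₂.trans (h.mono ((le_max_right _ _).trans (le_max_left _ _)))
  · intro a ha
    simp at ha
  · exact ht₁.mono ((le_max_left _ _).trans (le_max_left _ _))
  · simp
  · refine ⟨0, fun b hb _ t' ht' => ?_⟩
    have h1 : t₃ + 1 ≤ t' + 1 := (le_max_right _ _).trans ht'
    refine le_trans ?_ (ht₃ t' (by omega))
    simp only [Finset.mem_insert, Finset.mem_singleton] at hb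
    omega

end Pool.Agent.Helper90.Straus
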