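import Mathlib
import Pool.Agent.Helper90.Straus.Rec2

set_option autoImplicit false

namespace Pool.Agent.Helper90.Straus

/-- The sumset `A + B`. -/
def sumset (A B : Set ℕ) : Set ℕ := {x | ∃ a ∈ A, ∃ b ∈ B, x = a + b}

/-- Admissible pairs: both sets are infinite and `A + B` is pairwise coprime. -/
def Admissible (A B : Set ℕ) : Prop :=
  A.Infinite ∧ B.Infinite ∧ ∀ x ∈ sumset A B, ∀ y ∈ sumset A B, x ≠ y → Nat.gcd x y = 1

/-- The counting function `S_{A,B}(n) = |(A + B) ∩ {1, …, n}|`. -/
noncomputable def S (A B : Set ℕ) (n : ℕ) : ℕ := (sumset A B ∩ Set.Icc 1 n).ncard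

theorem S_mono (A B : Set ℕ) : Monotone (S A B) := by
  intro m n hmn
  unfold S
  apply Set.ncard_le_ncard
  · exact Set.inter_subset_inter_right _ (Set.Icc_subset_Icc_right hmn)
  · exact (Set.finite_Icc 1 n).subset Set.inter_subset_right

/-- **Core theorem**: every growth datum is realised by an admissible pair. -/
theorem core {n F : ℕ → ℕ} (h : Growth n F) : ∃ A B : Set ℕ, Admissible A B ∧ ∃ u₀, ∀ u ≥ u₀,
    ∀ m, n (u + 2) ≤ m → m < n (u + 3) → F u ≤ 2 * S A B m ∧ S A B m ≤ 4 * F (u + 2) := by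
  classical
  obtain ⟨t₀, hI⟩ := exists_init h
  obtain ⟨A, B, hAB⟩ := exists_seq h hI
  have hA1 : ∀ t ≥ t₀, A t ⊆ A (t + 1) := fun t ht => (hAB t ht).2.1
  have hB1 : ∀ t ≥ t₀, B t ⊆ B (t + 1) := fun t ht => (hAB t ht).2.2.1
  have hAm : ∀ s t, t₀ ≤ s → s ≤ t → A s ⊆ A t := by
    intro s t hs hst
    induction t, hst using Nat.le_induction with
    | base => exact subset_rfl
    | succ t ht ih => exact ih.trans (hA1 t (hs.trans ht))
  have hBm : ∀ s t, t₀ ≤ s → s ≤ t → B s ⊆ B t := by
    intro s t hs hst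
    induction t, hst using Nat.le_induction with
    | base => exact subset_rfl
    | succ t ht ih => exact ih.trans (hB1 t (hs.trans ht))
  have hAnew : ∀ t ≥ t₀, ∀ s ≥ t, ∀ a ∈ A s, a < n t → a ∈ A t := by
    intro t ht s hs
    induction s, hs using Nat.le_induction with
    | base => exact fun a ha _ => ha
    | succ s hs ih =>
      intro a ha hlt
      by_cases h1 : a ∈ A s
      · exact ih a h1 hlt
      · have h2 := (hAB s (ht.trans hs)).2.2.2.1 a ha h1
        have h3 := h.n_mono.monotone hs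
        omega
  have hBnew : ∀ t ≥ t₀, ∀ s ≥ t, ∀ b ∈ B s, b < n (t + 1) → b ∈ B t := by
    intro t ht s hs
    induction s, hs using Nat.le_induction with
    | base => exact fun b hb _ => hb
    | succ s hs ih =>
      intro b hb hlt
      by_cases h1 : b ∈ B s
      · exact ih b h1 hlt
      · have h2 := (hAB s (ht.trans hs)).2.2.2.2.1 b hb h1
        have h3 := h.n_mono.monotone (show t + 1 ≤ s + 1 by omega)
        omega
  set A' : Set ℕ := {a | ∃ t ≥ t₀, a ∈ A t} with hA'
  set B' : Set ℕ := {b | ∃ t ≥ t₀, b ∈ B t} with hB'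
  -- sizes
  have hBcard : ∀ k, ∃ t ≥ t₀, k ≤ (B t).card := by
    intro k
    induction k with
    | zero => exact ⟨t₀, le_rfl, Nat.zero_le _⟩
    | succ k ih =>
      obtain ⟨t, ht, hk⟩ := ih
      obtain ⟨s, hs, hne⟩ := exists_change h hAB ht
      refine ⟨s + 1, by omega, ?_⟩
      have h1 : B s ⊂ B (s + 1) :=
        (hB1 s (ht.trans hs)).ssubset_of_ne hne.symm
      have h2 := Finset.card_lt_card h1
      have h3 := Finset.card_le_card (hBm t s ht hs)
      omega
  have hAcard : ∀ k, ∃ t ≥ t₀, k ≤ (A t).card := by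
    intro k
    obtain ⟨t, ht, hk⟩ := hBcard k
    refine ⟨t + 1, by omega, hk.trans ?_⟩
    have h1 := (hAB t ht).1.le_F
    have h2 := (hAB t ht).2.2.2.2.2.1
    have h3 := (hAB t ht).1.two
    have h4 : (B t).card * (B t).card ≤ (A (t + 1)).card * (B t).card := by
      calc (B t).card * (B t).card = (B t).card ^ 2 := by ring
        _ ≤ F t := h1
        _ ≤ _ := h2
    exact Nat.le_of_mul_le_mul_right h4 (by omega)
  have hAinf : A'.Infinite := by
    intro hfin
    obtain ⟨t, ht, hk⟩ := hAcard (hfin.toFinset.card + 1)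
    have h1 : A t ⊆ hfin.toFinset := by
      intro a ha
      rw [Set.Finite.mem_toFinset]
      exact ⟨t, ht, ha⟩
    have := Finset.card_le_card h1
    omega
  have hBinf : B'.Infinite := by
    intro hfin
    obtain ⟨t, ht, hk⟩ := hBcard (hfin.toFinset.card + 1)
    have h1 : B t ⊆ hfin.toFinset := by
      intro a ha
      rw [Set.Finite.mem_toFinset]
      exact ⟨t, ht, ha⟩
    have := Finset.card_le_card h1
    omega
  refine ⟨A', B', ⟨hAinf, hBinf, ?_⟩, t₀, ?_⟩
  · rintro x ⟨a, ⟨t₁, ht₁, ha⟩, b, ⟨t₂, ht₂, hb⟩, rfl⟩ y ⟨a', ⟨t₃, ht₃, ha'⟩, b', ⟨t₄, ht₄, hb'⟩, rfl⟩ hne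
    set t := max (max t₁ t₂) (max t₃ t₄)
    have e1 : t₁ ≤ t := (le_max_left _ _).trans (le_max_left _ _)
    have e2 : t₂ ≤ t := (le_max_right _ _).trans (le_max_left _ _)
    have e3 : t₃ ≤ t := (le_max_left _ _).trans (le_max_right _ _)
    have e4 : t₄ ≤ t := (le_max_right _ _).trans (le_max_right _ _)
    have hG := (hAB t (ht₁.trans e1)).1.good
    apply hG.2 a (hAm t₁ t ht₁ e1 ha) b (hBm t₂ t ht₂ e2 hb) a' (hAm t₃ t ht₃ e3 ha') b'
      (hBm t₄ t ht₄ e4 hb')
    by_contra hcon
    push Not at hcon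
    exact hne (by rw [hcon.1, hcon.2])
  · intro u hu m hm1 hm2
    have hfin : (sumset A' B' ∩ Set.Icc 1 m).Finite :=
      (Set.finite_Icc 1 m).subset Set.inter_subset_right
    constructor
    · -- lower bound
      obtain ⟨b₀, hb₀⟩ := (hAB (u + 2) (by omega)).1.small
      have hG := (hAB (u + 2) (by omega)).1.good
      have hAA := hAm (u + 1) (u + 2) (by omega) (by omega)
      have hmaps : ∀ x ∈ (A (u + 1)) ×ˢ ((B (u + 2)).erase b₀), x.1 + x.2 ∈
          sumset A' B' ∩ Set.Icc 1 m := by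
        rintro ⟨a, b⟩ hx
        rw [Finset.mem_product, Finset.mem_erase] at hx
        obtain ⟨ha, hb, hbB⟩ := hx
        simp only at ha hb hbB ⊢
        refine ⟨⟨a, ⟨u + 1, by omega, ha⟩, b, ⟨u + 2, by omega, hbB⟩, rfl⟩, ?_⟩
        have h1 := (hAB (u + 1) (by omega)).1.lt_n a ha
        have h2 := hb₀ b hbB hb (u + 1) (by omega)
        have h3 := hG.1 a (hAA ha) b hbB
        have h4 := h.lt_succ (u + 1)
        rw [Set.mem_Icc]
        have h5 : u + 1 + 1 = u + 2 := rfl
        rw [h5] at h2 h4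
        omega
      have hinj : Set.InjOn (fun x : ℕ × ℕ => x.1 + x.2)
          ((A (u + 1)) ×ˢ ((B (u + 2)).erase b₀) : Finset (ℕ × ℕ)) := by
        rintro ⟨a, b⟩ hx ⟨a', b'⟩ hx' heq
        rw [Finset.mem_coe, Finset.mem_product, Finset.mem_erase] at hx hx'
        simp only at hx hx' heq
        by_contra hcon
        have h1 : a ≠ a' ∨ b ≠ b' := by
          by_contra h2
          push Not at h2
          exact hcon (by rw [h2.1, h2.2])
        have h2 := hG.2 a (hAA hx.1) b hx.2.2 a' (hAA hx'.1) b' hx'.2.2 h1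
        rw [heq, Nat.coprime_self] at h2
        have h3 := hG.1 a' (hAA hx'.1) b' hx'.2.2
        omega
      have h1 : ((A (u + 1)) ×ˢ ((B (u + 2)).erase b₀)).card ≤ S A' B' m := by
        unfold S
        rw [Set.ncard_eq_toFinset_card _ hfin]
        apply Finset.card_le_card_of_injOn _ _ hinj
        intro x hx
        rw [Finset.mem_coe, Set.Finite.mem_toFinset]
        exact hmaps x hx
      rw [Finset.card_product] at h1
      have h2 : (B (u + 2)).card ≤ 2 * ((B (u + 2)).erase b₀).card := by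
        have h3 := Finset.pred_card_le_card_erase (s := B (u + 2)) (a := b₀)
        have h4 := (hAB (u + 2) (by omega)).1.two
        omega
      have h3 : (B u).card ≤ (B (u + 2)).card :=
        Finset.card_le_card (hBm u (u + 2) hu (by omega))
      have h4 := (hAB u hu).2.2.2.2.2.1
      calc F u ≤ (A (u + 1)).card * (B u).card := h4
        _ ≤ (A (u + 1)).card * (2 * ((B (u + 2)).erase b₀).card) :=
            Nat.mul_le_mul_left _ (h3.trans h2)
        _ = 2 * ((A (u + 1)).card * ((B (u + 2)).erase b₀).card) := by ring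
        _ ≤ 2 * S A' B' m := Nat.mul_le_mul_left _ h1
    · -- upper bound
      have hsub : sumset A' B' ∩ Set.Icc 1 m ⊆
          (fun x : ℕ × ℕ => x.1 + x.2) '' ((A (u + 3)) ×ˢ (B (u + 2)) : Finset (ℕ × ℕ)) := by
        rintro x ⟨⟨a, ⟨t₁, ht₁, ha⟩, b, ⟨t₂, ht₂, hb⟩, rfl⟩, hx⟩
        rw [Set.mem_Icc] at hx
        refine ⟨(a, b), ?_, rfl⟩
        rw [Finset.mem_coe, Finset.mem_product]
        constructor
        · rcases le_total t₁ (u + 3) with h1 | h1
          · exact hAm t₁ (u + 3) ht₁ h1 ha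
          · exact hAnew (u + 3) (by omega) t₁ h1 a ha (by omega)
        · rcases le_total t₂ (u + 2) with h1 | h1
          · exact hBm t₂ (u + 2) ht₂ h1 hb
          · have h5 : b < n (u + 2 + 1) := by
              have h6 : n (u + 2 + 1) = n (u + 3) := rfl
              omega
            exact hBnew (u + 2) (by omega) t₂ h1 b hb h5
      have h1 : S A' B' m ≤ ((A (u + 3)) ×ˢ (B (u + 2))).card := by
        unfold S
        refine (Set.ncard_le_ncard hsub ((Finset.finite_toSet _).image _)).trans ?_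
        refine (Set.ncard_image_le (Finset.finite_toSet _)).trans ?_
        rw [Set.ncard_coe_finset]
      rw [Finset.card_product] at h1
      exact h1.trans (hAB (u + 2) (by omega)).2.2.2.2.2.2.1

end Pool.Agent.Helper90.Straus
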