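import Mathlib
import Pool.Agent.Helper90.Straus.Sets

set_option autoImplicit false

namespace Pool.Agent.Helper90.Straus

open Filter Asymptotics

/-- Orders whose growth is controlled on short intervals are attained. -/
theorem attained {f : ℕ → ℝ} {h : ℕ → ℕ} {C : ℝ}
    (hmono : ∃ n₀, ∀ m n, n₀ ≤ m → m ≤ n → f m ≤ f n) (hunb : Tendsto f atTop atTop)
    (hh : ∀ᶠ n in atTop, h n ≤ n) (hC : ∀ᶠ n in atTop, f (n + h n) ≤ C * f n)
    (hbig : ∀ c : ℕ, ∀ᶠ n : ℕ in atTop, (f n * Real.log n) ^ c ≤ h n) :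
    ∃ A B : Set ℕ, Admissible A B ∧ (fun n => (S A B n : ℝ)) =Θ[atTop] f := by
  obtain ⟨n₀, hn₀⟩ := hmono
  obtain ⟨n₁, hn₁⟩ := eventually_atTop.1 (hunb.eventually_ge_atTop 1)
  obtain ⟨n₂, hn₂⟩ := eventually_atTop.1 hh
  obtain ⟨n₃, hn₃⟩ := eventually_atTop.1 hC
  obtain ⟨n₄, hn₄⟩ := eventually_atTop.1 (hbig 0)
  obtain ⟨N, hN⟩ : ∃ N, N = max (max (max n₀ n₁) (max n₂ n₃)) (max n₄ 2) := ⟨_, rfl⟩
  have hN0 : n₀ ≤ N := by omega
  have hN1 : n₁ ≤ N := by omega
  have hN2 : n₂ ≤ N := by omega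
  have hN3 : n₃ ≤ N := by omega
  have hN4 : n₄ ≤ N := by omega
  have hN5 : 2 ≤ N := by omega
  obtain ⟨n, hn0, hns⟩ : ∃ n : ℕ → ℕ, n 0 = N ∧ ∀ t, n (t + 1) = n t + h (n t) :=
    ⟨fun t => Nat.rec N (fun _ x => x + h x) t, rfl, fun _ => rfl⟩
  have hge : ∀ t, N ≤ n t := by
    intro t
    induction t with
    | zero => rw [hn0]
    | succ t ih =>
      rw [hns]
      omega
  have hh1 : ∀ m, N ≤ m → 1 ≤ h m := by
    intro m hm
    have := hn₄ m (hN4.trans hm)
    rw [pow_zero] at this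
    exact_mod_cast this
  have hlt : ∀ t, n t < n (t + 1) := by
    intro t
    rw [hns]
    have := hh1 _ (hge t)
    omega
  have hsm : StrictMono n := strictMono_nat_of_lt_succ hlt
  have hle : ∀ t, t ≤ n t := fun t => hsm.le_apply
  have hf1 : ∀ m, N ≤ m → 1 ≤ f m := fun m hm => hn₁ m (hN1.trans hm)
  have hfm : ∀ m m', N ≤ m → m ≤ m' → f m ≤ f m' := fun m m' hm hmm =>
    hn₀ m m' (hN0.trans hm) hmm
  obtain ⟨F, hF⟩ : ∃ F : ℕ → ℕ, ∀ t, F t = ⌈f (n t)⌉₊ := ⟨_, fun _ => rfl⟩
  have hFge : ∀ t, f (n t) ≤ F t := fun t => by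
    rw [hF]
    exact Nat.le_ceil _
  have hFle : ∀ t, (F t : ℝ) ≤ f (n t) + 1 := fun t => by
    rw [hF]
    exact (Nat.ceil_lt_add_one (by linarith [hf1 _ (hge t)])).le
  have hG : Growth n F := by
    refine ⟨fun t => hN5.trans (hge t), hlt, ?_, ?_, ?_, ?_⟩
    · intro t
      rw [hns]
      have := hn₂ (n t) (hN2.trans (hge t))
      omega
    · intro s t hst
      rw [hF, hF]
      exact Nat.ceil_mono (hfm _ _ (hge s) (hsm.monotone hst))
    · intro m
      obtain ⟨m₁, hm₁⟩ := eventually_atTop.1 (hunb.eventually_ge_atTop (m : ℝ))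
      refine ⟨m₁, ?_⟩
      have h1 := hm₁ (n m₁) (hle m₁)
      have h2 := hFge m₁
      exact_mod_cast h1.trans h2
    · intro c
      obtain ⟨m₁, hm₁⟩ := eventually_atTop.1 (hbig (2 * c))
      obtain ⟨m₂, hm₂⟩ := eventually_atTop.1 (hunb.eventually_ge_atTop 9)
      refine ⟨max m₁ (max m₂ 3), fun t ht => ?_⟩
      have e1 : m₁ ≤ n t := ((le_max_left _ _).trans ht).trans (hle t)
      have e2 : m₂ ≤ n t :=
        (((le_max_left _ _).trans (le_max_right _ _)).trans ht).trans (hle t)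
      have e3 : 3 ≤ n t :=
        (((le_max_right _ _).trans (le_max_right _ _)).trans ht).trans (hle t)
      have h1 := hm₁ (n t) e1
      have h2 := hm₂ (n t) e2
      have hlog1 : 1 ≤ Real.log (n t) := by
        rw [Real.le_log_iff_exp_le (by exact_mod_cast (show 0 < n t by omega))]
        have h3 : (3 : ℝ) ≤ n t := by exact_mod_cast e3
        linarith [Real.exp_one_lt_d9]
      have hlog2 : ((Nat.log 2 (n t) : ℕ) : ℝ) + 1 ≤ 3 * Real.log (n t) := by
        have h3 : ((Nat.log 2 (n t) : ℕ) : ℝ) * Real.log 2 ≤ Real.log (n t) := by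
          rw [← Real.log_pow]
          apply Real.log_le_log (by positivity)
          exact_mod_cast Nat.pow_log_le_self 2 (show n t ≠ 0 by omega)
        have h4 := Real.log_two_gt_d9
        have h5 : (0 : ℝ) ≤ ((Nat.log 2 (n t) : ℕ) : ℝ) := Nat.cast_nonneg _
        nlinarith
      have h6 : (F t : ℝ) + 1 ≤ 3 * f (n t) := by
        have := hFle t
        linarith
      have h7 : ((F t : ℝ) + 1) * (((Nat.log 2 (n t) : ℕ) : ℝ) + 1) ≤
          (f (n t) * Real.log (n t)) ^ 2 := by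
        calc ((F t : ℝ) + 1) * (((Nat.log 2 (n t) : ℕ) : ℝ) + 1)
            ≤ (3 * f (n t)) * (3 * Real.log (n t)) := by
              apply mul_le_mul h6 hlog2 (by positivity) (by linarith)
          _ = 9 * (f (n t) * Real.log (n t)) := by ring
          _ ≤ (f (n t) * Real.log (n t)) * (f (n t) * Real.log (n t)) := by
              apply mul_le_mul_of_nonneg_right _ (by nlinarith)
              nlinarith
          _ = _ := by ring
      have h8 : (((F t : ℝ) + 1) * (((Nat.log 2 (n t) : ℕ) : ℝ) + 1)) ^ c ≤ h (n t) := by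
        calc _ ≤ ((f (n t) * Real.log (n t)) ^ 2) ^ c := pow_le_pow_left₀ (by positivity) h7 c
          _ = (f (n t) * Real.log (n t)) ^ (2 * c) := by rw [pow_mul]
          _ ≤ _ := h1
      have h9 : n (t + 1) - n t = h (n t) := by
        rw [hns]
        omega
      rw [h9]
      exact_mod_cast h8
  obtain ⟨A, B, hAB, u₀, hu₀⟩ := core hG
  refine ⟨A, B, hAB, ?_⟩
  -- the location of a large integer
  have hloc : ∀ m, n (u₀ + 2) ≤ m → ∃ u ≥ u₀, n (u + 2) ≤ m ∧ m < n (u + 3) := by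
    intro m hm
    have hex : ∃ i, m < n (u₀ + 2 + i) := ⟨m + 1, by
      have := hle (u₀ + 2 + (m + 1))
      omega⟩
    classical
    obtain ⟨i, hi⟩ : ∃ i, i = Nat.find hex := ⟨_, rfl⟩
    have h1 : m < n (u₀ + 2 + i) := by
      rw [hi]
      exact Nat.find_spec hex
    have h0 : i ≠ 0 := by
      intro h0
      rw [h0, add_zero] at h1
      omega
    have h2 : ¬ m < n (u₀ + 2 + (i - 1)) := Nat.find_min hex (by omega)
    refine ⟨u₀ + (i - 1), by omega, ?_, ?_⟩
    · have h3 : u₀ + (i - 1) + 2 = u₀ + 2 + (i - 1) := by omega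
      rw [h3]
      exact not_lt.1 h2
    · have h3 : u₀ + (i - 1) + 3 = u₀ + 2 + i := by omega
      rw [h3]
      exact h1
  have hCf : ∀ t, f (n (t + 1)) ≤ C * f (n t) := by
    intro t
    rw [hns]
    exact hn₃ (n t) (hN3.trans (hge t))
  have hC1 : 1 ≤ C := by
    have h1 := hCf 0
    have h2 := hfm (n 0) (n 1) (hge 0) (hlt 0).le
    have h3 := hf1 _ (hge 0)
    by_contra hcon
    rw [not_le] at hcon
    have h4 : C * f (n 0) < 1 * f (n 0) := mul_lt_mul_of_pos_right hcon (by linarith)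
    have h5 : f (n (0 + 1)) = f (n 1) := rfl
    linarith
  constructor
  · apply IsBigO.of_bound 8
    filter_upwards [eventually_ge_atTop (n (u₀ + 2))] with m hm
    obtain ⟨u, hu, h1, h2⟩ := hloc m hm
    obtain ⟨_, h4⟩ := hu₀ u hu m h1 h2
    have h5 := hFle (u + 2)
    have h6 := hf1 _ (hge (u + 2))
    have h7 := hfm _ _ (hge (u + 2)) h1
    have h8 : (S A B m : ℝ) ≤ 4 * F (u + 2) := by exact_mod_cast h4
    rw [Real.norm_of_nonneg (Nat.cast_nonneg _), Real.norm_of_nonneg (by linarith)]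
    linarith
  · apply IsBigO.of_bound (2 * C ^ 3)
    filter_upwards [eventually_ge_atTop (n (u₀ + 2))] with m hm
    obtain ⟨u, hu, h1, h2⟩ := hloc m hm
    obtain ⟨h3, _⟩ := hu₀ u hu m h1 h2
    have h5 := hFge u
    have h6 := hf1 _ (hge (u + 2))
    have h7 := hfm _ _ (hge (u + 2)) h1
    have h8 : (F u : ℝ) ≤ 2 * S A B m := by exact_mod_cast h3
    rw [Real.norm_of_nonneg (by linarith), Real.norm_of_nonneg (Nat.cast_nonneg _)]
    have h9 := hfm _ _ ((hge (u + 2)).trans h1) h2.le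
    have g1 := hCf u
    have g2 := hCf (u + 1)
    have g3 := hCf (u + 2)
    have g4 : C * f (n (u + 1)) ≤ C * (C * f (n u)) := mul_le_mul_of_nonneg_left g1 (by linarith)
    have g5 : C * f (n (u + 2)) ≤ C * (C * (C * f (n u))) :=
      mul_le_mul_of_nonneg_left (g2.trans g4) (by linarith)
    have g6 : C * (C * (C * f (n u))) ≤ C * (C * (C * (2 * S A B m))) := by
      apply mul_le_mul_of_nonneg_left _ (by linarith)
      apply mul_le_mul_of_nonneg_left _ (by linarith)
      apply mul_le_mul_of_nonneg_left _ (by linarith)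
      linarith
    have g7 : 2 * C ^ 3 * (S A B m : ℝ) = C * (C * (C * (2 * S A B m))) := by ring
    rw [g7]
    have g8 : n (u + 2 + 1) = n (u + 3) := rfl
    rw [g8] at g3
    linarith

/-- Subpolynomial orders of doubling growth are attained. -/
theorem attained_doubling {f : ℕ → ℝ} {C : ℝ}
    (hmono : ∃ n₀, ∀ m n, n₀ ≤ m → m ≤ n → f m ≤ f n) (hunb : Tendsto f atTop atTop)
    (hC : ∀ᶠ n in atTop, f (2 * n) ≤ C * f n)
    (hsub : ∀ ε : ℝ, 0 < ε → ∀ᶠ n : ℕ in atTop, f n ≤ (n : ℝ) ^ ε) :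
    ∃ A B : Set ℕ, Admissible A B ∧ (fun n => (S A B n : ℝ)) =Θ[atTop] f := by
  apply attained (h := fun n => n) (C := C) hmono hunb (Eventually.of_forall fun n => le_rfl)
  · filter_upwards [hC] with n hn
    rw [← two_mul]
    exact hn
  · intro c
    rcases Nat.eq_zero_or_pos c with hc | hc
    · rw [hc]
      filter_upwards [eventually_ge_atTop 1] with n hn
      rw [pow_zero]
      exact_mod_cast hn
    · have hc0 : (0 : ℝ) < c := by exact_mod_cast hc
      have hε : (0 : ℝ) < 1 / (2 * c) := by positivity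
      have hlog' : ∀ᶠ x : ℝ in atTop, Real.log x ≤ x ^ (1 / (2 * (c : ℝ))) := by
        have h1 := (isLittleO_log_rpow_atTop hε).bound (show (0 : ℝ) < 1 by norm_num)
        filter_upwards [h1, eventually_ge_atTop 1] with x hx hx1
        rw [one_mul, Real.norm_of_nonneg (Real.log_nonneg hx1),
          Real.norm_of_nonneg (by positivity)] at hx
        exact hx
      have hlog'' : ∀ᶠ n : ℕ in atTop, Real.log n ≤ (n : ℝ) ^ (1 / (2 * (c : ℝ))) :=
        tendsto_natCast_atTop_atTop.eventually hlog'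
      filter_upwards [hlog'', hsub _ hε, hunb.eventually_ge_atTop 0, eventually_ge_atTop 1]
        with n h1 h2 h3 h4
      have hn1 : (1 : ℝ) ≤ n := by exact_mod_cast h4
      have hn0 : (0 : ℝ) ≤ n := by linarith
      calc (f n * Real.log n) ^ c ≤
            ((n : ℝ) ^ (1 / (2 * (c : ℝ))) * (n : ℝ) ^ (1 / (2 * (c : ℝ)))) ^ c := by
            apply pow_le_pow_left₀ (mul_nonneg h3 (Real.log_nonneg hn1))
            exact mul_le_mul h2 h1 (Real.log_nonneg hn1) (by positivity)
        _ = (n : ℝ) := by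
            rw [← Real.rpow_add (by linarith), ← Real.rpow_natCast, ← Real.rpow_mul hn0]
            have : (1 / (2 * (c : ℝ)) + 1 / (2 * (c : ℝ))) * (c : ℝ) = 1 := by
              field_simp
              norm_num
            rw [this, Real.rpow_one]

end Pool.Agent.Helper90.Straus
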